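import Mathlib

/-!
# Choice of the parameters
-/

set_option autoImplicit false

namespace Pool.Agent.V1156.DL

lemma opt_one {A ℓ h l : ℝ} (hA : 1 ≤ A) {n : ℕ} (hn : 1 ≤ n) (hl : l = 1 + Real.log n)
    (hℓ : 4 * A * (Real.sqrt n * l) ≤ ℓ)
    (H : ∀ w : ℕ, 1 ≤ w → w ≤ n → (w : ℝ) * ℓ ≤ A * (((w : ℝ) ^ 2 + n) * l + n * (n * h))) :
    1 / (16 * A ^ 2) * min 1 (ℓ ^ 2 / (n ^ 2 * l)) ≤ h := by
  have hn1 : (1:ℝ) ≤ n := by exact_mod_cast hn
  have hln : 0 ≤ Real.log n := Real.log_nonneg hn1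
  have hl1 : 1 ≤ l := by linarith
  have hs1 : 1 ≤ Real.sqrt n := Real.one_le_sqrt.mpr hn1
  have hs2 : Real.sqrt n ^ 2 = n := Real.sq_sqrt (by linarith)
  have hA0 : 0 < A := by linarith
  have hℓ0 : 0 < ℓ := lt_of_lt_of_le (by positivity) hℓ
  rcases le_or_gt (ℓ / (4 * A * l)) n with hcase | hcase
  · have hx : Real.sqrt n ≤ ℓ / (4 * A * l) := by
      rw [le_div_iff₀ (by positivity)]
      linarith
    set x := ℓ / (4 * A * l) with hxdef
    have hx1 : 1 ≤ x := hs1.trans hx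
    set w := ⌈x⌉₊ with hw
    have hw1 : x ≤ w := Nat.le_ceil _
    have hw2 : (w : ℝ) < x + 1 := Nat.ceil_lt_add_one (by linarith)
    have hw3 : w ≤ n := Nat.ceil_le.mpr hcase
    have hw4 : 1 ≤ w := Nat.one_le_ceil_iff.mpr (by linarith)
    have h1 := H w hw4 hw3
    have hxl : x * (4 * A * l) = ℓ := by
      rw [hxdef]
      field_simp
    have hw5 : (w : ℝ) * (A * l) ≤ ℓ / 2 := by
      have : (w : ℝ) ≤ 2 * x := by linarith
      have h2 := mul_le_mul_of_nonneg_right this (by positivity : 0 ≤ A * l)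
      linarith
    have hw6 : A * ((w : ℝ) ^ 2 * l) ≤ w * ℓ / 2 := by
      have := mul_le_mul_of_nonneg_left hw5 (Nat.cast_nonneg (α := ℝ) w)
      nlinarith
    have hw7 : A * (n * l) ≤ w * ℓ / 4 := by
      have h2 : x * ℓ ≤ w * ℓ := mul_le_mul_of_nonneg_right hw1 hℓ0.le
      have h3 : Real.sqrt n * (4 * A * (Real.sqrt n * l)) ≤ x * ℓ :=
        mul_le_mul hx hℓ (by positivity) (by linarith)
      have h4 : Real.sqrt n * (4 * A * (Real.sqrt n * l)) = 4 * (A * (n * l)) := by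
        calc Real.sqrt n * (4 * A * (Real.sqrt n * l)) = 4 * A * (Real.sqrt n ^ 2 * l) := by ring
          _ = _ := by rw [hs2]; ring
      linarith
    have h2 : (w : ℝ) * ℓ / 4 ≤ A * (n ^ 2 * h) := by nlinarith
    have h3 : x * ℓ / 4 ≤ A * (n ^ 2 * h) := by
      have h4 : x * ℓ ≤ w * ℓ := mul_le_mul_of_nonneg_right hw1 hℓ0.le
      linarith
    have h4 : ℓ ^ 2 / (16 * A ^ 2 * (n ^ 2 * l)) ≤ h := by
      rw [div_le_iff₀ (by positivity)]
      have h5 : ℓ ^ 2 = x * ℓ * (4 * A * l) := by rw [← hxl]; ring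
      rw [h5]
      have h6 := mul_le_mul_of_nonneg_right h3 (by positivity : 0 ≤ 16 * A * l)
      nlinarith
    calc 1 / (16 * A ^ 2) * min 1 (ℓ ^ 2 / (n ^ 2 * l)) ≤
        1 / (16 * A ^ 2) * (ℓ ^ 2 / (n ^ 2 * l)) :=
          mul_le_mul_of_nonneg_left (min_le_right _ _) (by positivity)
      _ = ℓ ^ 2 / (16 * A ^ 2 * (n ^ 2 * l)) := by
          field_simp
      _ ≤ h := h4
  · have h1 := H n hn le_rfl
    rw [lt_div_iff₀ (by positivity)] at hcase
    have h2 : (n : ℝ) * (n * (4 * A * l)) < n * ℓ := by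
      have : (0:ℝ) < n := by linarith
      exact mul_lt_mul_of_pos_left hcase this
    have h3 : (n : ℝ) ≤ n ^ 2 := by nlinarith
    have h4 : ((n : ℝ) ^ 2 + n) * l ≤ 2 * n ^ 2 * l := by nlinarith
    have h5 : A * (((n : ℝ) ^ 2 + n) * l) ≤ A * (2 * n ^ 2 * l) :=
      mul_le_mul_of_nonneg_left h4 hA0.le
    have h6 : A * (n ^ 2 * (2 * l)) < A * (n ^ 2 * h) := by nlinarith
    have h7 : 2 * l < h := by
      have := lt_of_mul_lt_mul_left h6 hA0.le
      exact lt_of_mul_lt_mul_left this (by positivity)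
    have h8 : 1 / (16 * A ^ 2) * min 1 (ℓ ^ 2 / (n ^ 2 * l)) ≤ 1 * 1 := by
      apply mul_le_mul _ (min_le_left _ _) (by positivity) zero_le_one
      rw [div_le_one (by positivity)]
      nlinarith
    linarith

lemma opt_two {A ℓ h l d : ℝ} (hA : 1 ≤ A) (hd : 2 ≤ d) {n : ℕ} (hn : 1 ≤ n)
    (hl : l = 1 + Real.log n)
    (hℓ : 26 * A * Real.sqrt (1 + Real.log d) * (Real.sqrt n * l) ≤
      ℓ * Real.sqrt (1 + Real.log l)) (hh : 0 ≤ h)
    (H : ∀ k w : ℕ, 1 ≤ k → 1 ≤ w → w ≤ n * k → (w : ℝ) * (k * ℓ) ≤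
      A * (((w : ℝ) ^ 2 + n * k) * (1 + Real.log (n * k)) + n * k * (n * (d ^ k * h)))) :
    1 / (d * n) ≤ h := by
  have hn1 : (1:ℝ) ≤ n := by exact_mod_cast hn
  have hln : 0 ≤ Real.log n := Real.log_nonneg hn1
  have hl1 : 1 ≤ l := by linarith
  have hll : 0 ≤ Real.log l := Real.log_nonneg hl1
  have hll2 : Real.log l ≤ l - 1 := Real.log_le_sub_one_of_pos (by linarith)
  have hld : 0.69 < Real.log d := by
    have h1 := Real.log_two_gt_d9
    have h2 := Real.log_le_log two_pos hd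
    linarith
  have hd0 : 0 < d := by linarith
  set s := Real.sqrt n with hs
  have hs1 : 1 ≤ s := Real.one_le_sqrt.mpr hn1
  have hs2 : s ^ 2 = n := Real.sq_sqrt (by linarith)
  set k := ⌊Real.log l / Real.log d⌋₊ + 1 with hk
  have hq0 : 0 ≤ Real.log l / Real.log d := by positivity
  have hk1 : ((k : ℝ) - 1) ≤ Real.log l / Real.log d := by
    rw [hk]
    push_cast
    have := Nat.floor_le hq0
    linarith
  have hk2 : Real.log l / Real.log d < k := by
    rw [hk]
    push_cast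
    exact Nat.lt_floor_add_one _
  have hk3 : (1:ℝ) ≤ k := by
    rw [hk]
    push_cast
    have : (0:ℝ) ≤ ⌊Real.log l / Real.log d⌋₊ := Nat.cast_nonneg _
    linarith
  have hk4 : ((k : ℝ) - 1) * Real.log d ≤ Real.log l := by
    rwa [le_div_iff₀ (by linarith)] at hk1
  have hk5 : Real.log l < k * Real.log d := by
    rwa [div_lt_iff₀ (by linarith)] at hk2
  have hdk : d ^ k ≤ d * l := by
    have h1 : Real.log (d ^ k) ≤ Real.log (d * l) := by
      rw [Real.log_pow, Real.log_mul (by linarith) (by linarith)]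
      linarith
    exact (Real.log_le_log_iff (by positivity) (by positivity)).mp h1
  have hlogk : Real.log k ≤ 1.5 * (l - 1) := by
    have h1 : Real.log k ≤ k - 1 := Real.log_le_sub_one_of_pos (by linarith)
    have h2 : ((k : ℝ) - 1) * 0.69 ≤ ((k : ℝ) - 1) * Real.log d :=
      mul_le_mul_of_nonneg_left hld.le (by linarith)
    linarith
  have hlognk : 1 + Real.log (n * k) ≤ 2.5 * l := by
    rw [Real.log_mul (by linarith) (by linarith)]
    linarith
  have hk0 : (0:ℝ) < k := by linarith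
  set t := Real.sqrt k with ht
  have ht2 : t ^ 2 = k := Real.sq_sqrt hk0.le
  have ht1 : 1 ≤ t := Real.one_le_sqrt.mpr hk3
  -- `w`
  set w := ⌈s * t⌉₊ with hw
  have hst1 : 1 ≤ s * t := by nlinarith
  have hst2 : (s * t) ^ 2 = n * k := by rw [mul_pow, hs2, ht2]
  have hw1 : s * t ≤ w := Nat.le_ceil _
  have hw2 : (w : ℝ) < s * t + 1 := Nat.ceil_lt_add_one (by linarith)
  have hw3 : w ≤ n * k := by
    apply Nat.ceil_le.mpr
    push_cast
    rw [← hst2]
    nlinarith
  have hw4 : 1 ≤ w := Nat.one_le_ceil_iff.mpr (by linarith)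
  have hw5 : (w : ℝ) ^ 2 ≤ 4 * (n * k) := by
    rw [← hst2]
    nlinarith
  have hℓ0 : 0 < ℓ := by
    by_contra hcon
    push Not at hcon
    have h1 : 0 ≤ Real.sqrt (1 + Real.log l) := Real.sqrt_nonneg _
    have h2 : ℓ * Real.sqrt (1 + Real.log l) ≤ 0 := mul_nonpos_of_nonpos_of_nonneg hcon h1
    have h3 : 0 < Real.sqrt (1 + Real.log d) := Real.sqrt_pos.mpr (by linarith)
    have h4 : 0 < 26 * A * Real.sqrt (1 + Real.log d) * (s * l) := by positivity
    linarith
  have h1 := H k w (by omega) hw4 hw3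
  have hnk0 : 0 < (n : ℝ) * k := by positivity
  have h2 : (k : ℝ) * (s * t * ℓ) ≤ k * (A * (12.5 * n * l + n ^ 2 * (d * l * h))) := by
    have e1 : (k : ℝ) * (s * t * ℓ) ≤ w * (k * ℓ) := by
      have := mul_le_mul_of_nonneg_right hw1 (by positivity : 0 ≤ (k : ℝ) * ℓ)
      linarith
    have e2 : ((w : ℝ) ^ 2 + n * k) * (1 + Real.log (n * k)) ≤ 5 * (n * k) * (2.5 * l) := by
      apply mul_le_mul (by linarith) hlognk _ (by positivity)
      have : 0 ≤ Real.log (n * k) := Real.log_nonneg (by nlinarith)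
      linarith
    have e3 : (n : ℝ) * k * (n * (d ^ k * h)) ≤ n * k * (n * (d * l * h)) :=
      mul_le_mul_of_nonneg_left (mul_le_mul_of_nonneg_left
        (mul_le_mul_of_nonneg_right hdk hh) (by linarith)) hnk0.le
    have e4 := mul_le_mul_of_nonneg_left (add_le_add e2 e3) (by linarith : 0 ≤ A)
    refine e1.trans (h1.trans (e4.trans (le_of_eq ?_)))
    ring
  have h3 : s * t * ℓ ≤ A * (12.5 * n * l + n ^ 2 * (d * l * h)) := le_of_mul_le_mul_left h2 hk0
  -- the lower bound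
  set u := Real.sqrt (1 + Real.log d) with hu
  have hu0 : 0 < u := Real.sqrt_pos.mpr (by linarith)
  have h4 : Real.sqrt (1 + Real.log l) ≤ t * u := by
    rw [ht, hu, ← Real.sqrt_mul hk0.le]
    apply Real.sqrt_le_sqrt
    linarith
  have h5 : u * (26 * A * (n * l)) ≤ u * (s * t * ℓ) := by
    calc u * (26 * A * (n * l)) = s * (26 * A * u * (s * l)) := by rw [← hs2]; ring
      _ ≤ s * (ℓ * Real.sqrt (1 + Real.log l)) := mul_le_mul_of_nonneg_left hℓ (by linarith)
      _ ≤ s * (ℓ * (t * u)) := mul_le_mul_of_nonneg_left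
          (mul_le_mul_of_nonneg_left h4 hℓ0.le) (by linarith)
      _ = u * (s * t * ℓ) := by ring
  have h6 : 26 * A * (n * l) ≤ s * t * ℓ := le_of_mul_le_mul_left h5 hu0
  have h7 : A * (26 * (n * l)) ≤ A * (12.5 * n * l + n ^ 2 * (d * l * h)) := by linarith
  have h8 := le_of_mul_le_mul_left h7 (by linarith)
  have h9 : (n * l) * 1 ≤ (n * l) * (d * n * h) := by
    have : 0 < (n:ℝ) * l := by positivity
    nlinarith
  have h10 : 1 ≤ d * n * h := le_of_mul_le_mul_left h9 (by positivity)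
  rw [div_le_iff₀ (by positivity)]
  linarith

end Pool.Agent.V1156.DL
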