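import Mathlib
import Pool.Agent.Y642.DL.D
import Pool.Agent.TH860.LQ.Fin

/-!
# Determinant inequalities for the conjugates of an iterate of a monic integer polynomial

The Vandermonde determinant of the conjugates of `β = f^m(α)` is bounded from above by the energy
inequality with the Green function of `f`, and from below by its divisibility by a power of a modulus
`q` that divides `G(β)` for a monic integer polynomial `G` of small degree.
-/

set_option autoImplicit false

open Finset Polynomial Module Filter Topology IntermediateField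

namespace Pool.Agent.V1156.DL

open Pool.Agent.H388SL Pool.Agent.H389R3.LR Pool.Agent.H389R3.LP Pool.Agent.W666.DL
  Pool.Agent.W666.DY Pool.Agent.Y642.LZ Pool.Agent.Y642.DL

/-- the logarithm of the square of the Vandermonde determinant -/
lemma log_vand {N : ℕ} (z : Fin N → ℂ) (hz : Function.Injective z) :
    Real.log (‖(Matrix.vandermonde z).det‖ ^ 2) = ∑ i, ∑ j, Real.log ‖z i - z j‖ := by
  have hlog : Real.log ‖(Matrix.vandermonde z).det‖ = ∑ i, ∑ j ∈ Ioi i, Real.log ‖z i - z j‖ := by
    rw [Matrix.det_vandermonde, norm_prod, Real.log_prod]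
    · refine Finset.sum_congr rfl fun i _ => ?_
      rw [norm_prod, Real.log_prod]
      · refine Finset.sum_congr rfl fun j _ => ?_
        rw [norm_sub_rev]
      · intro j hj
        rw [Finset.mem_Ioi] at hj
        rw [Ne, norm_eq_zero, sub_eq_zero]
        intro h
        exact hj.ne' (hz h)
    · intro i _
      rw [norm_prod, Finset.prod_ne_zero_iff]
      intro j hj
      rw [Finset.mem_Ioi] at hj
      rw [Ne, norm_eq_zero, sub_eq_zero]
      intro h
      exact hj.ne' (hz h)
  rw [Real.log_pow, hlog, sum_symm (fun i j => Real.log ‖z i - z j‖)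
    (fun i j => by rw [norm_sub_rev]) (fun i => by rw [sub_self, norm_zero, Real.log_zero])]
  norm_num

/-- the data of the Green function -/
structure IsGreen (f : ℤ[X]) (G : ℂ → ℝ) (C : ℝ) : Prop where
  monic : f.Monic
  deg : 2 ≤ f.natDegree
  hC : 0 ≤ C
  hG0 : ∀ z, 0 ≤ G z
  hG1 : ∀ z : ℂ, Real.posLog ‖z‖ ≤ G z + C
  hG2 : ∀ z : ℂ, G (aeval z f) = f.natDegree * G z

/-- upper bound for the Vandermonde determinant -/
lemma vand_upper {f : ℤ[X]} {G : ℂ → ℝ} {C : ℝ} (hg : IsGreen f G C) {N : ℕ} (hN : 0 < N)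
    (z : Fin N → ℂ) (hz : Function.Injective z) :
    Real.log (‖(Matrix.vandermonde z).det‖ ^ 2) ≤
      2 * (N * (∑ i, G (z i) + (1 + 2 * (f.natDegree * C)) * (1 + Real.log N))) := by
  rw [log_vand z hz]
  refine (energy_fin f hg.monic hg.deg hg.hC hg.hG0 hg.hG1 hg.hG2 z hz).trans ?_
  have h1 := natlog_le hN
  have h2 : 0 ≤ Real.log N := Real.log_natCast_nonneg _
  have hc : 0 ≤ f.natDegree * C := mul_nonneg (Nat.cast_nonneg _) hg.hC
  have h3 : Real.log N + f.natDegree * C * (Nat.log 2 N + 1) ≤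
      (1 + 2 * (f.natDegree * C)) * (1 + Real.log N) := by
    have h4 := mul_le_mul_of_nonneg_left (add_le_add_left h1 1) hc
    nlinarith
  have h5 := mul_le_mul_of_nonneg_left h3 (Nat.cast_nonneg (α := ℝ) N)
  linarith

/-- **the determinant inequality for a modulus `q`** -/
theorem gen_q {f : ℤ[X]} {G : ℂ → ℝ} {C : ℝ} (hg : IsGreen f G C) {ι : Type*} [Fintype ι]
    [Nonempty ι] (v : ι → ℂ)
    (hinj : Function.Injective v) (hint : ∀ i, IsIntegral ℤ (v i))
    (hs : ∀ j : ℕ, ∃ m : ℤ, ∑ i, v i ^ j = m)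
    (F : ℤ[X]) (hFm : F.Monic) (hFt : 0 < F.natDegree) (q : ℕ) (hq : 1 < q)
    (hval : ∀ i, ∃ γ : ℂ, IsIntegral ℤ γ ∧ aeval (v i) F = q * γ) :
    ((Fintype.card ι : ℝ) - F.natDegree) * Real.log q ≤
      2 * F.natDegree * (∑ i, G (v i) +
        (1 + 2 * (f.natDegree * C)) * (1 + Real.log (Fintype.card ι))) := by
  classical
  set N := Fintype.card ι with hN
  set t := F.natDegree with ht
  have hN0 : 0 < N := Fintype.card_pos
  let e : Fin N ≃ ι := (Fintype.equivFin ι).symm
  set w : Fin N → ℂ := fun i => v (e i) with hw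
  have hwinj : Function.Injective w := hinj.comp e.injective
  have h1 := Pool.Agent.TH860.LP.det_lower w hwinj (fun i => hint _) (fun j => by
    obtain ⟨m, hm⟩ := hs j
    exact ⟨m, by rw [← hm]; exact Fintype.sum_equiv e _ _ fun i => rfl⟩) F hFm q (by omega)
      (fun i => hval _)
  have h2 := vand_upper hg hN0 w hwinj
  have hsumG : ∑ i, G (w i) = ∑ i, G (v i) := Fintype.sum_equiv e _ _ fun i => rfl
  rw [hsumG] at h2
  set S := ∑ m ∈ Finset.range N, m / t with hS
  have hsb := Pool.Agent.TH53.SL.sum_bound' t hFt N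
  rw [← hS] at hsb
  have hsb' : (N : ℝ) * ((N : ℝ) - t) ≤ 2 * t * S := by exact_mod_cast hsb
  have hN1 : (0 : ℝ) < N := by exact_mod_cast hN0
  have hq1 : (1 : ℝ) < q := by exact_mod_cast hq
  have hlogq : 0 < Real.log q := Real.log_pos hq1
  have h3 : (2 * S : ℝ) * Real.log q ≤
      2 * (N * (∑ i, G (v i) + (1 + 2 * (f.natDegree * C)) * (1 + Real.log N))) := by
    have h4 := Real.log_le_log (by positivity) h1
    rw [Real.log_pow] at h4
    push_cast at h4
    exact h4.trans h2
  have ht0 : (0 : ℝ) < t := by exact_mod_cast hFt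
  have h7 : (N : ℝ) * (((N : ℝ) - t) * Real.log q) ≤
      N * (2 * t * (∑ i, G (v i) + (1 + 2 * (f.natDegree * C)) * (1 + Real.log N))) := by
    calc (N : ℝ) * (((N : ℝ) - t) * Real.log q) = (N : ℝ) * ((N : ℝ) - t) * Real.log q := by ring
      _ ≤ 2 * t * S * Real.log q := mul_le_mul_of_nonneg_right hsb' hlogq.le
      _ = t * (2 * S * Real.log q) := by ring
      _ ≤ t * (2 * (N * (∑ i, G (v i) + (1 + 2 * (f.natDegree * C)) * (1 + Real.log N)))) :=
          mul_le_mul_of_nonneg_left h3 ht0.le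
      _ = _ := by ring
  exact le_of_mul_le_mul_left h7 hN1

/-- **the determinant inequality with exceptional conjugates** -/
theorem gen_loc {f : ℤ[X]} {G : ℂ → ℝ} {C : ℝ} (hg : IsGreen f G C) {p : ℕ}
    {V : ValuationSubring ℂ} (hp : p.Prime) (hV : Pool.Agent.TH53.HR.Good p V)
    {ι : Type*} [Fintype ι] [Nonempty ι] (v : ι → ℂ)
    (hinj : Function.Injective v) (hint : ∀ i, IsIntegral ℤ (v i))
    (hs : ∀ j : ℕ, ∃ m : ℤ, ∑ i, v i ^ j = m)
    (H : Finset ι) (F : ℤ[X]) (hFm : F.Monic) (hFt : 0 < F.natDegree)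
    (hF : ∀ i, i ∉ H → aeval (v i) F / p ∈ V) :
    ((Fintype.card ι : ℝ) - H.card) * ((Fintype.card ι : ℝ) - H.card - 2 * F.natDegree) *
        Real.log p ≤
      2 * F.natDegree * (Fintype.card ι * (∑ i, G (v i) +
        (1 + 2 * (f.natDegree * C)) * (1 + Real.log (Fintype.card ι)))) := by
  classical
  set N := Fintype.card ι with hN
  set t := F.natDegree with ht
  have hN0 : 0 < N := Fintype.card_pos
  let e : Fin N ≃ ι := (Fintype.equivFin ι).symm
  set w : Fin N → ℂ := fun i => v (e i) with hw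
  have hwinj : Function.Injective w := hinj.comp e.injective
  set H' : Finset (Fin N) := H.map e.symm.toEmbedding with hH'
  have hcard : H'.card = H.card := Finset.card_map _
  have h1 := Pool.Agent.TH53.HR.det_lower hp hV w hwinj (fun i => hint _) (fun j => by
    obtain ⟨m, hm⟩ := hs j
    exact ⟨m, by rw [← hm]; exact Fintype.sum_equiv e _ _ fun i => rfl⟩) H' F hFm (fun i hi => by
    apply hF
    intro h
    apply hi
    rw [hH', Finset.mem_map]
    exact ⟨e i, h, by simp⟩)
  rw [hcard] at h1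
  have h2 := vand_upper hg hN0 w hwinj
  have hsumG : ∑ i, G (w i) = ∑ i, G (v i) := Fintype.sum_equiv e _ _ fun i => rfl
  rw [hsumG] at h2
  have hp1 : (1 : ℝ) < p := by exact_mod_cast hp.one_lt
  have hlogp : 0 < Real.log p := Real.log_pos hp1
  set S := ∑ m ∈ Finset.range N, (m - H.card) / t with hS
  have hHN : H.card ≤ N := Finset.card_le_univ H
  have hsb := Pool.Agent.TH53.HR.sum_bound t hFt H.card N
  rw [← hS] at hsb
  have hsb' : ((N : ℝ) - H.card) * ((N : ℝ) - H.card - 2 * t) ≤ 2 * t * S := by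
    have h4 : ((N - H.card : ℕ) : ℝ) = (N : ℝ) - H.card := by rw [Nat.cast_sub hHN]
    rw [← h4]
    exact_mod_cast hsb
  have h3 : (2 * S : ℝ) * Real.log p ≤
      2 * (N * (∑ i, G (v i) + (1 + 2 * (f.natDegree * C)) * (1 + Real.log N))) := by
    have h4 := Real.log_le_log (by positivity) h1
    rw [Real.log_pow] at h4
    push_cast at h4
    exact h4.trans h2
  have ht0 : (0:ℝ) < t := by exact_mod_cast hFt
  calc ((N : ℝ) - H.card) * ((N : ℝ) - H.card - 2 * t) * Real.log p
      ≤ 2 * t * S * Real.log p := mul_le_mul_of_nonneg_right hsb' hlogp.le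
    _ = t * (2 * S * Real.log p) := by ring
    _ ≤ t * (2 * (N * (∑ i, G (v i) + (1 + 2 * (f.natDegree * C)) * (1 + Real.log N)))) :=
        mul_le_mul_of_nonneg_left h3 ht0.le
    _ = _ := by ring

end Pool.Agent.V1156.DL
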