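import Mathlib
import Pool.Agent.V1156.DL.Core

/-!
# The determinant inequalities in a number field
-/

set_option autoImplicit false

open Finset Polynomial Module Filter Topology IntermediateField

namespace Pool.Agent.V1156.DL

open Pool.Agent.H388SL Pool.Agent.H389R3.LR Pool.Agent.H389R3.LP Pool.Agent.W666.DL
  Pool.Agent.W666.DY Pool.Agent.Y642.LZ Pool.Agent.Y642.DL

variable {K : Type*} [Field K] [NumberField K]

/-- the conjugates of `β` -/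
noncomputable def vv (β : K) (τ : ℚ⟮β⟯ →ₐ[ℚ] ℂ) : ℂ := τ (AdjoinSimple.gen ℚ β)

lemma vv_inj (β : K) : Function.Injective (vv β) := by
  intro σ τ h
  apply adjoin_algHom_ext ℚ (s := {β})
  intro x hx
  rw [Set.mem_singleton_iff] at hx
  subst hx
  exact h

lemma gen_int {β : K} (hβ : IsIntegral ℤ β) : IsIntegral ℤ (AdjoinSimple.gen ℚ β) := by
  have hγβ : algebraMap ℚ⟮β⟯ K (AdjoinSimple.gen ℚ β) = β := AdjoinSimple.algebraMap_gen ℚ β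
  rw [← hγβ] at hβ
  exact (isIntegral_algebraMap_iff (algebraMap ℚ⟮β⟯ K).injective).mp hβ

lemma vv_int {β : K} (hβ : IsIntegral ℤ β) (τ : ℚ⟮β⟯ →ₐ[ℚ] ℂ) : IsIntegral ℤ (vv β τ) :=
  (gen_int hβ).map (τ.restrictScalars ℤ)

lemma vv_sums {β : K} (hβ : IsIntegral ℤ β) (j : ℕ) : ∃ m : ℤ, ∑ τ, vv β τ ^ j = m := by
  obtain ⟨m, hm⟩ := Pool.Agent.TH53.HR.trace_int ((gen_int hβ).pow j)
  refine ⟨m, ?_⟩
  rw [← hm]
  refine Finset.sum_congr rfl fun σ _ => ?_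
  rw [map_pow]
  rfl

lemma vv_range (β : K) : (Set.range fun σ : K →ₐ[ℚ] ℂ => σ β) = Set.range (vv β) := by
  have hγβ : algebraMap ℚ⟮β⟯ K (AdjoinSimple.gen ℚ β) = β := AdjoinSimple.algebraMap_gen ℚ β
  have hmin : minpoly ℚ β = minpoly ℚ (AdjoinSimple.gen ℚ β) := by
    conv_lhs => rw [← hγβ]
    exact minpoly.algebraMap_eq (algebraMap ℚ⟮β⟯ K).injective _
  have h1 := (NumberField.isAlgebraic K).range_eval_eq_rootSet_minpoly ℂ β
  have h2 := (NumberField.isAlgebraic ℚ⟮β⟯).range_eval_eq_rootSet_minpoly ℂ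
    (AdjoinSimple.gen ℚ β)
  rw [h1, hmin, ← h2]
  rfl

lemma vv_card (β : K) : Fintype.card (ℚ⟮β⟯ →ₐ[ℚ] ℂ) = (minpoly ℚ β).natDegree := by
  rw [AlgHom.card ℚ ℚ⟮β⟯ ℂ, adjoin.finrank (Algebra.IsIntegral.isIntegral (R := ℚ) β)]

lemma vv_nonempty (β : K) : Nonempty (ℚ⟮β⟯ →ₐ[ℚ] ℂ) := by
  rw [← Fintype.card_pos_iff, vv_card]
  exact minpoly.natDegree_pos (Algebra.IsIntegral.isIntegral (R := ℚ) β)

lemma sum_emb (β : K) (g : ℂ → ℝ) :
    ∑ σ : K →ₐ[ℚ] ℂ, g (σ β) = finrank ℚ⟮β⟯ K * ∑ τ, g (vv β τ) := by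
  have h := Pool.Agent.TH53.SL.prod_emb β (fun z => Real.exp (g z))
  rw [← Real.exp_sum, ← Real.exp_sum, ← Real.exp_nat_mul] at h
  exact Real.exp_injective h

/-- the sum of the Green function over the conjugates of `f^m(α)` -/
lemma sum_G {f : ℤ[X]} {G : ℂ → ℝ} {C : ℝ} (hg : IsGreen f G C) (α : K) (m : ℕ) :
    ∑ τ, G (vv ((ph f)^[m] α) τ) =
      (minpoly ℚ ((ph f)^[m] α)).natDegree * ((f.natDegree : ℝ) ^ m * hG G α) := by
  set β := (ph f)^[m] α with hβ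
  have h1 := sum_emb β G
  have h2 : ∑ σ : K →ₐ[ℚ] ℂ, G (σ β) = (f.natDegree : ℝ) ^ m * ∑ σ : K →ₐ[ℚ] ℂ, G (σ α) := by
    rw [Finset.mul_sum]
    refine Finset.sum_congr rfl fun σ _ => ?_
    have h3 : σ β = (ph f)^[m] (σ α) := ph_hom (σ : K →+* ℂ) f m α
    rw [h3]
    exact G_iter hg.hG2 m (σ α)
  have hdeg : finrank ℚ ℚ⟮β⟯ * finrank ℚ⟮β⟯ K = finrank ℚ K := finrank_mul_finrank ℚ ℚ⟮β⟯ K
  rw [adjoin.finrank (Algebra.IsIntegral.isIntegral (R := ℚ) β)] at hdeg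
  have hy0 : 0 < finrank ℚ⟮β⟯ K := finrank_pos
  have hy0' : (0 : ℝ) < finrank ℚ⟮β⟯ K := by exact_mod_cast hy0
  have hD0 : (0:ℝ) < finrank ℚ K := by exact_mod_cast (finrank_pos : 0 < finrank ℚ K)
  have hdeg' : ((minpoly ℚ β).natDegree : ℝ) * finrank ℚ⟮β⟯ K = finrank ℚ K := by
    exact_mod_cast hdeg
  have hN0 : (0:ℝ) < (minpoly ℚ β).natDegree := by
    exact_mod_cast minpoly.natDegree_pos (Algebra.IsIntegral.isIntegral (R := ℚ) β)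
  unfold hG
  rw [← hdeg']
  rw [h2] at h1
  field_simp
  linarith

/-- divisibility of the values at the conjugates -/
lemma vv_val {β : K} {F : ℤ[X]} {q : ℕ} {δ : K} (hδ1 : IsIntegral ℤ δ)
    (hδ2 : aeval β F = q * δ) (τ : ℚ⟮β⟯ →ₐ[ℚ] ℂ) :
    ∃ γ : ℂ, IsIntegral ℤ γ ∧ aeval (vv β τ) F = q * γ := by
  have h1 : vv β τ ∈ Set.range fun σ : K →ₐ[ℚ] ℂ => σ β := by
    rw [vv_range]
    exact ⟨τ, rfl⟩
  obtain ⟨σ, hσ⟩ := h1
  refine ⟨σ δ, hδ1.map (σ.restrictScalars ℤ), ?_⟩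
  have h2 : aeval (vv β τ) F = σ (aeval β F) := by
    rw [← hσ]
    exact aeval_algHom_apply (σ.restrictScalars ℤ) β F
  rw [h2, hδ2, map_mul, map_natCast]

/-- the integrality of the iterates -/
lemma int_iter {f : ℤ[X]} {α : K} (hα : IsIntegral ℤ α) (m : ℕ) : IsIntegral ℤ ((ph f)^[m] α) :=
  integral_ph hα f m

/-- **modulus `q`, number fields** -/
theorem field_q {f : ℤ[X]} {G : ℂ → ℝ} {C : ℝ} (hg : IsGreen f G C) {α : K}
    (hα : IsIntegral ℤ α) (m : ℕ) (F : ℤ[X]) (hFm : F.Monic) (hFt : 0 < F.natDegree)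
    (q : ℕ) (hq : 1 < q) (hF : ∃ δ : K, IsIntegral ℤ δ ∧ aeval ((ph f)^[m] α) F = q * δ)
    (N : ℕ) (hN : N = (minpoly ℚ ((ph f)^[m] α)).natDegree) :
    ((N : ℝ) - F.natDegree) * Real.log q ≤
      2 * F.natDegree * (N * ((f.natDegree : ℝ) ^ m * hG G α) +
        (1 + 2 * (f.natDegree * C)) * (1 + Real.log N)) := by
  obtain ⟨δ, hδ1, hδ2⟩ := hF
  have hne := vv_nonempty ((ph f)^[m] α)
  have h := gen_q hg (vv ((ph f)^[m] α)) (vv_inj _) (fun τ => vv_int (int_iter hα m) τ)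
    (fun j => vv_sums (int_iter hα m) j) F hFm hFt q hq (fun τ => vv_val hδ1 hδ2 τ)
  rw [vv_card, sum_G hg, ← hN] at h
  exact h

end Pool.Agent.V1156.DL
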