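import Mathlib
import Pool.Agent.V1156.DL.Fld

/-!
# Charges near the points of a finite forward invariant set
-/

set_option autoImplicit false

open Finset Polynomial Module Filter Topology Real

namespace Pool.Agent.V1156.DL

open Pool.Agent.W666.DL Pool.Agent.W666.DY Pool.Agent.Y642.LZ Pool.Agent.Y642.DL

/-- the energy of the roots of unity -/
lemma roots_energy (w : ℕ) (hw : 0 < w) :
    0 ≤ ∑ x ∈ nthRootsFinset w (1 : ℂ), ∑ y ∈ nthRootsFinset w (1 : ℂ), Real.log ‖x - y‖ := by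
  classical
  have h1 : (X ^ w - 1 : ℤ[X]).map (Int.castRingHom ℂ) =
      ∏ z ∈ nthRootsFinset w (1 : ℂ), (X - C z) := by
    rw [Polynomial.map_sub, Polynomial.map_pow, Polynomial.map_X, Polynomial.map_one]
    exact X_pow_sub_one_eq_prod hw (Complex.isPrimitiveRoot_exp w hw.ne')
  obtain ⟨h2, h3⟩ := disc_sum _ _ h1
  have h4 : ∑ x ∈ nthRootsFinset w (1 : ℂ), ∑ y ∈ nthRootsFinset w (1 : ℂ), Real.log ‖x - y‖ =
      ∑ z ∈ nthRootsFinset w (1 : ℂ), ∑ w_1 ∈ nthRootsFinset w (1 : ℂ),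
        (if z = w_1 then 0 else Real.log ‖z - w_1‖) := by
    refine Finset.sum_congr rfl fun x _ => Finset.sum_congr rfl fun y _ => ?_
    split_ifs with h
    · rw [h, sub_self, norm_zero, Real.log_zero]
    · rfl
  rw [h4, h3]
  apply Real.log_nonneg
  have := Int.one_le_abs h2
  exact_mod_cast this

/-- the energy of the charges -/
lemma charge_energy (S : Finset ℂ) (w : ℕ) (hw : 0 < w) (v : ℂ) (hv : v ≠ 0) (hv1 : ‖v‖ ≤ 1)
    (c₀ : ℝ) (hc₀ : 0 ≤ c₀)
    (hsep : ∀ s ∈ S, ∀ s' ∈ S, s ≠ s' → ∀ x ∈ nthRootsFinset w (1 : ℂ),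
      ∀ y ∈ nthRootsFinset w (1 : ℂ), Real.exp (-c₀) ≤ ‖(s + v * x) - (s' + v * y)‖) :
    -(((S.card : ℝ) * w) ^ 2 * (c₀ + Real.log (1 / ‖v‖))) ≤
      ∑ s ∈ S, ∑ s' ∈ S, ∑ x ∈ nthRootsFinset w (1 : ℂ), ∑ y ∈ nthRootsFinset w (1 : ℂ),
        Real.log ‖(s + v * x) - (s' + v * y)‖ := by
  classical
  have hcard : (nthRootsFinset w (1 : ℂ)).card = w :=
    (Complex.isPrimitiveRoot_exp w hw.ne').card_nthRootsFinset
  have hnv : 0 < ‖v‖ := norm_pos_iff.mpr hv
  have hlv : Real.log (1 / ‖v‖) = -Real.log ‖v‖ := by rw [one_div, Real.log_inv]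
  have hlv0 : Real.log ‖v‖ ≤ 0 := Real.log_nonpos hnv.le hv1
  have hblock : ∀ s ∈ S, ∀ s' ∈ S, -((w : ℝ) ^ 2 * (c₀ + Real.log (1 / ‖v‖))) ≤
      ∑ x ∈ nthRootsFinset w (1 : ℂ), ∑ y ∈ nthRootsFinset w (1 : ℂ),
        Real.log ‖(s + v * x) - (s' + v * y)‖ := by
    intro s hs s' hs'
    by_cases h : s = s'
    · subst h
      have h1 : ∀ x ∈ nthRootsFinset w (1 : ℂ), ∀ y ∈ nthRootsFinset w (1 : ℂ),
          Real.log ‖v‖ + Real.log ‖x - y‖ ≤ Real.log ‖(s + v * x) - (s + v * y)‖ := by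
        intro x _ y _
        have h2 : (s + v * x) - (s + v * y) = v * (x - y) := by ring
        rw [h2, norm_mul]
        by_cases hxy : x = y
        · rw [hxy, sub_self, norm_zero, mul_zero, Real.log_zero, add_zero]
          exact hlv0
        · rw [Real.log_mul hnv.ne' (norm_ne_zero_iff.mpr (sub_ne_zero.mpr hxy))]
      have h3 : ∑ x ∈ nthRootsFinset w (1 : ℂ), ∑ y ∈ nthRootsFinset w (1 : ℂ),
          (Real.log ‖v‖ + Real.log ‖x - y‖) ≤
          ∑ x ∈ nthRootsFinset w (1 : ℂ), ∑ y ∈ nthRootsFinset w (1 : ℂ),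
            Real.log ‖(s + v * x) - (s + v * y)‖ :=
        Finset.sum_le_sum fun x hx => Finset.sum_le_sum fun y hy => h1 x hx y hy
      have h4 : ∑ x ∈ nthRootsFinset w (1 : ℂ), ∑ y ∈ nthRootsFinset w (1 : ℂ),
          (Real.log ‖v‖ + Real.log ‖x - y‖) = (w : ℝ) ^ 2 * Real.log ‖v‖ +
          ∑ x ∈ nthRootsFinset w (1 : ℂ), ∑ y ∈ nthRootsFinset w (1 : ℂ),
            Real.log ‖x - y‖ := by
        simp_rw [Finset.sum_add_distrib, Finset.sum_const, hcard, nsmul_eq_mul]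
        ring
      have h5 := roots_energy w hw
      rw [hlv]
      have h6 : 0 ≤ (w : ℝ) ^ 2 * c₀ := by positivity
      nlinarith
    · have h1 : ∑ x ∈ nthRootsFinset w (1 : ℂ), ∑ y ∈ nthRootsFinset w (1 : ℂ), (-c₀) ≤
          ∑ x ∈ nthRootsFinset w (1 : ℂ), ∑ y ∈ nthRootsFinset w (1 : ℂ),
            Real.log ‖(s + v * x) - (s' + v * y)‖ := by
        refine Finset.sum_le_sum fun x hx => Finset.sum_le_sum fun y hy => ?_
        have := Real.log_le_log (Real.exp_pos _) (hsep s hs s' hs' h x hx y hy)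
        rwa [Real.log_exp] at this
      have h2 : ∑ x ∈ nthRootsFinset w (1 : ℂ), ∑ y ∈ nthRootsFinset w (1 : ℂ), (-c₀) =
          -((w : ℝ) ^ 2 * c₀) := by
        simp_rw [Finset.sum_const, hcard, nsmul_eq_mul]
        ring
      rw [h2] at h1
      refine le_trans ?_ h1
      rw [hlv]
      have : 0 ≤ (w : ℝ) ^ 2 * (-Real.log ‖v‖) := by
        have : 0 ≤ -Real.log ‖v‖ := by linarith
        positivity
      nlinarith
  calc -(((S.card : ℝ) * w) ^ 2 * (c₀ + Real.log (1 / ‖v‖)))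
      = ∑ s ∈ S, ∑ s' ∈ S, -((w : ℝ) ^ 2 * (c₀ + Real.log (1 / ‖v‖))) := by
        simp_rw [Finset.sum_const, nsmul_eq_mul]
        ring
    _ ≤ _ := Finset.sum_le_sum fun s hs => Finset.sum_le_sum fun s' hs' => hblock s hs s' hs'

/-- the choice of the position of the charges -/
lemma exists_position (Z S : Finset ℂ) (w : ℕ) (hw : 0 < w) (δ : ℝ) (hδ : 0 < δ)
    (hne : ∀ z ∈ Z, ∀ s ∈ S, z ≠ s) (hδne : ∀ z ∈ Z, ∀ s ∈ S, ‖z - s‖ ≠ δ) :
    ∃ v : ℂ, ‖v‖ = δ ∧ (w : ℝ) * ∑ z ∈ Z, ∑ s ∈ S, Real.log ‖z - s‖ - 1 ≤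
      ∑ z ∈ Z, ∑ s ∈ S, ∑ x ∈ nthRootsFinset w (1 : ℂ), Real.log ‖z - (s + v * x)‖ := by
  classical
  set R : ℝ := δ ^ w with hR
  have hR0 : 0 < R := by positivity
  -- the average
  have hav : ∀ a : ℂ, a ≠ 0 → Real.log ‖a‖ ≤ circleAverage (Real.log ‖· - a‖) 0 R := by
    intro a ha
    rw [circleAverage_log_norm_sub_const_eq_log_radius_add_posLog hR0.ne', zero_sub, norm_neg]
    have h1 : Real.log (R⁻¹ * ‖a‖) ≤ Real.posLog (R⁻¹ * ‖a‖) := by
      rw [Real.posLog_def]; exact le_max_right _ _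
    rw [Real.log_mul (inv_pos.mpr hR0).ne' (norm_ne_zero_iff.mpr ha), Real.log_inv] at h1
    linarith
  set F : ℂ → ℝ := fun u => ∑ z ∈ Z, ∑ s ∈ S, Real.log ‖u - (z - s) ^ w‖ with hF
  have hint : CircleIntegrable F 0 R := by
    have h1 : F = ∑ z ∈ Z, ∑ s ∈ S, (fun u : ℂ => Real.log ‖u - (z - s) ^ w‖) := by
      funext u
      rw [hF]
      simp only [Finset.sum_apply]
    rw [h1]
    refine CircleIntegrable.sum _ fun z _ => CircleIntegrable.sum _ fun s _ => ?_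
    exact circleIntegrable_log_norm_sub_const R
  have havF : (w : ℝ) * ∑ z ∈ Z, ∑ s ∈ S, Real.log ‖z - s‖ ≤ circleAverage F 0 R := by
    have h1 : circleAverage F 0 R =
        ∑ z ∈ Z, ∑ s ∈ S, circleAverage (fun u : ℂ => Real.log ‖u - (z - s) ^ w‖) 0 R := by
      rw [hF, circleAverage_fun_sum]
      · refine Finset.sum_congr rfl fun z _ => ?_
        rw [circleAverage_fun_sum]
        intro s _
        exact circleIntegrable_log_norm_sub_const R
      · intro z _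
        have h2 : (fun u : ℂ => ∑ s ∈ S, Real.log ‖u - (z - s) ^ w‖) =
            ∑ s ∈ S, (fun u : ℂ => Real.log ‖u - (z - s) ^ w‖) := by
          funext u
          simp only [Finset.sum_apply]
        rw [h2]
        exact CircleIntegrable.sum _ fun s _ => circleIntegrable_log_norm_sub_const R
    rw [h1, Finset.mul_sum]
    refine Finset.sum_le_sum fun z hz => ?_
    rw [Finset.mul_sum]
    refine Finset.sum_le_sum fun s hs => ?_
    have h3 : z - s ≠ 0 := sub_ne_zero.mpr (hne z hz s hs)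
    have h4 := hav ((z - s) ^ w) (pow_ne_zero _ h3)
    rw [norm_pow, Real.log_pow] at h4
    exact h4
  obtain ⟨u, hu1, hu2⟩ : ∃ u ∈ Metric.sphere (0 : ℂ) |R|,
      (w : ℝ) * ∑ z ∈ Z, ∑ s ∈ S, Real.log ‖z - s‖ - 1 < F u := by
    by_contra hcon
    push Not at hcon
    have := circleAverage_mono_on_of_le_circle hint hcon
    linarith
  obtain ⟨v, hv⟩ := IsAlgClosed.exists_pow_nat_eq u hw
  have hunorm : ‖u‖ = R := by
    rw [mem_sphere_zero_iff_norm, abs_of_pos hR0] at hu1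
    exact hu1
  have hvnorm : ‖v‖ = δ := by
    have h1 : ‖v‖ ^ w = δ ^ w := by rw [← norm_pow, hv, hunorm]
    exact (pow_left_inj₀ (norm_nonneg _) hδ.le hw.ne').mp h1
  refine ⟨v, hvnorm, ?_⟩
  have hFu : F u = ∑ z ∈ Z, ∑ s ∈ S, ∑ x ∈ nthRootsFinset w (1 : ℂ),
      Real.log ‖z - (s + v * x)‖ := by
    rw [hF]
    dsimp only
    refine Finset.sum_congr rfl fun z hz => Finset.sum_congr rfl fun s hs => ?_
    have hprod := (Complex.isPrimitiveRoot_exp w hw.ne').pow_sub_pow_eq_prod_sub_mul (z - s) v hw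
    rw [hv] at hprod
    rw [← norm_neg, neg_sub, hprod, norm_prod, Real.log_prod]
    · refine Finset.sum_congr rfl fun x _ => ?_
      congr 2
      ring
    · intro x hx h0
      rw [norm_eq_zero] at h0
      have hx1 : ‖x‖ = 1 := by
        have h1 : x ^ w = 1 := (mem_nthRootsFinset hw _).mp hx
        have h2 : ‖x‖ ^ w = 1 ^ w := by rw [← norm_pow, h1, norm_one, one_pow]
        exact (pow_left_inj₀ (norm_nonneg _) zero_le_one hw.ne').mp h2
      apply hδne z hz s hs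
      have h3 : z - s = x * v := by linear_combination h0
      rw [h3, norm_mul, hx1, one_mul, hvnorm]
  rw [← hFu]
  exact hu2.le

end Pool.Agent.V1156.DL
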