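import Mathlib
import Pool.Agent.V1156.DL.Pot

/-!
# Charges near the points of a finite forward invariant set, continued
-/

set_option autoImplicit false

open Finset Polynomial Module Filter Topology Real

namespace Pool.Agent.V1156.DL

open Pool.Agent.W666.DL Pool.Agent.W666.DY Pool.Agent.Y642.LZ Pool.Agent.Y642.DL

lemma poly_lipschitz (f : ℤ[X]) (R : ℝ) :
    ∃ M : ℝ, 0 ≤ M ∧ ∀ x y : ℂ, ‖x‖ ≤ R → ‖y‖ ≤ R → ‖aeval x f - aeval y f‖ ≤ M * ‖x - y‖ := by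
  have h1 : LocallyLipschitz (fun x : ℂ => aeval x f) :=
    (Polynomial.contDiff_aeval f 1).locallyLipschitz
  obtain ⟨K, hK⟩ := (h1.locallyLipschitzOn (s := Metric.closedBall (0:ℂ) R)).exists_lipschitzOnWith_of_compact
    (isCompact_closedBall _ _)
  refine ⟨K, K.2, fun x y hx hy => ?_⟩
  have h2 := hK.dist_le_mul x (by simpa using hx) y (by simpa using hy)
  rwa [dist_eq_norm, dist_eq_norm] at h2

/-- the charges near the points of `S`: small Green function and separation -/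
lemma charges {f : ℤ[X]} {G : ℂ → ℝ} {C : ℝ} (hg : IsGreen f G C)
    (hG1' : ∀ z : ℂ, G z ≤ Real.posLog ‖z‖ + C) (S : Finset ℂ)
    (hS : ∀ s ∈ S, aeval s f ∈ S) :
    ∃ M C₂ : ℝ, 2 ≤ M ∧ 0 ≤ C₂ ∧ ∀ T : ℕ, 1 ≤ T → ∀ v : ℂ, ‖v‖ ≤ (M ^ T)⁻¹ →
      (∀ s ∈ S, ∀ x : ℂ, ‖x‖ = 1 → G (s + v * x) ≤ C₂ / (f.natDegree : ℝ) ^ T) ∧
      (∀ s ∈ S, ∀ s' ∈ S, s ≠ s' → ∀ x y : ℂ, ‖x‖ = 1 → ‖y‖ = 1 →
        Real.exp (-Real.log M) ≤ ‖(s + v * x) - (s' + v * y)‖) := by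
  classical
  -- radius
  obtain ⟨R, hR1, hR⟩ : ∃ R : ℝ, 1 ≤ R ∧ ∀ s ∈ S, ‖s‖ + 1 ≤ R := by
    refine ⟨∑ s ∈ S, ‖s‖ + 1, ?_, fun s hs => ?_⟩
    · have : 0 ≤ ∑ s ∈ S, ‖s‖ := Finset.sum_nonneg fun _ _ => norm_nonneg _
      linarith
    · have := Finset.single_le_sum (f := fun s : ℂ => ‖s‖) (fun _ _ => norm_nonneg _) hs
      linarith
  -- separation
  obtain ⟨η, hη0, hη⟩ : ∃ η : ℝ, 0 < η ∧ ∀ s ∈ S, ∀ s' ∈ S, s ≠ s' → η ≤ ‖s - s'‖ := by
    by_cases hne : (S.offDiag).Nonempty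
    · obtain ⟨p, hp, hmin⟩ := Finset.exists_min_image S.offDiag (fun p : ℂ × ℂ => ‖p.1 - p.2‖) hne
      refine ⟨‖p.1 - p.2‖, ?_, fun s hs s' hs' hss => ?_⟩
      · rw [Finset.mem_offDiag] at hp
        exact norm_pos_iff.mpr (sub_ne_zero.mpr hp.2.2)
      · exact hmin (s, s') (Finset.mem_offDiag.mpr ⟨hs, hs', hss⟩)
    · refine ⟨1, one_pos, fun s hs s' hs' hss => ?_⟩
      exact absurd ⟨(s, s'), Finset.mem_offDiag.mpr ⟨hs, hs', hss⟩⟩ hne
  obtain ⟨M₀, hM₀, hLip⟩ := poly_lipschitz f R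
  set M : ℝ := max (max 2 M₀) (3 / η) with hM
  have hM2 : 2 ≤ M := (le_max_left _ _).trans (le_max_left _ _)
  have hMM₀ : M₀ ≤ M := (le_max_right _ _).trans (le_max_left _ _)
  have hMη : 3 / η ≤ M := le_max_right _ _
  have hM0 : 0 < M := by linarith
  set C₂ : ℝ := Real.log R + C with hC₂
  have hC₂0 : 0 ≤ C₂ := add_nonneg (Real.log_nonneg hR1) hg.hC
  have hd0 : (0:ℝ) < f.natDegree := by exact_mod_cast (by have := hg.deg; omega : 0 < f.natDegree)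
  have hMT1 : ∀ T : ℕ, (M ^ T)⁻¹ ≤ 1 := fun T =>
    inv_le_one_of_one_le₀ (one_le_pow₀ (by linarith))
  have key : ∀ T : ℕ, ∀ s ∈ S, ∀ x : ℂ, ‖x - s‖ ≤ (M ^ T)⁻¹ → G x ≤ C₂ / (f.natDegree : ℝ) ^ T := by
    intro T
    induction T with
    | zero =>
      intro s hs x hx
      rw [pow_zero, inv_one] at hx
      rw [pow_zero, div_one]
      have h1 : ‖x‖ ≤ R := by
        have h2 : ‖x‖ ≤ ‖s‖ + ‖x - s‖ := norm_le_norm_add_norm_sub' x s
        linarith [hR s hs]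
      have h2 : Real.posLog ‖x‖ ≤ Real.log R := by
        rw [← Real.posLog_eq_log (by rw [abs_of_pos (by linarith)]; exact hR1)]
        exact Real.posLog_le_posLog (norm_nonneg _) h1
      linarith [hG1' x]
    | succ T ih =>
      intro s hs x hx
      have h1 : ‖x‖ ≤ R := by
        have h2 : ‖x‖ ≤ ‖s‖ + ‖x - s‖ := norm_le_norm_add_norm_sub' x s
        linarith [hR s hs, hMT1 (T + 1)]
      have h1' : ‖s‖ ≤ R := by linarith [hR s hs]
      have h2 := hLip x s h1 h1'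
      have h3 : ‖aeval x f - aeval s f‖ ≤ (M ^ T)⁻¹ := by
        refine h2.trans ?_
        calc M₀ * ‖x - s‖ ≤ M * (M ^ (T + 1))⁻¹ := mul_le_mul hMM₀ hx (norm_nonneg _) hM0.le
          _ = (M ^ T)⁻¹ := by
            rw [pow_succ]
            field_simp
      have h4 := ih (aeval s f) (hS s hs) (aeval x f) h3
      rw [hg.hG2] at h4
      rw [pow_succ, ← div_div, le_div_iff₀ hd0]
      linarith
  refine ⟨M, C₂, hM2, hC₂0, fun T hT v hv => ⟨fun s hs x hx => ?_, ?_⟩⟩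
  · apply key T s hs
    have h1 : s + v * x - s = v * x := by ring
    rw [h1, norm_mul, hx, mul_one]
    exact hv
  · intro s hs s' hs' hss x y hx hy
    rw [Real.exp_neg, Real.exp_log hM0]
    have h1 : (M ^ T)⁻¹ ≤ M⁻¹ := by
      apply inv_anti₀ hM0
      calc M = M ^ 1 := (pow_one M).symm
        _ ≤ M ^ T := pow_le_pow_right₀ (by linarith) hT
    have h2 : M⁻¹ ≤ η / 3 := by
      rw [inv_le_comm₀ hM0 (by positivity)]
      have : (η / 3)⁻¹ = 3 / η := by rw [inv_div]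
      rw [this]
      exact hMη
    have h3 := hη s hs s' hs' hss
    have h4 : s - s' = ((s + v * x) - (s' + v * y)) - v * x + v * y := by ring
    have h5 : ‖s - s'‖ ≤ ‖(s + v * x) - (s' + v * y)‖ + ‖v * x‖ + ‖v * y‖ := by
      rw [h4]
      refine (norm_add_le _ _).trans ?_
      have := norm_sub_le ((s + v * x) - (s' + v * y)) (v * x)
      linarith
    rw [norm_mul, norm_mul, hx, hy, mul_one] at h5
    linarith

/-- **the energy inequality with charges** -/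
theorem energy_charges {f : ℤ[X]} {G : ℂ → ℝ} {C : ℝ} (hg : IsGreen f G C)
    (S Z : Finset ℂ) (hZ : Z.Nonempty) (Q : ℤ[X])
    (hQ : Q.map (Int.castRingHom ℂ) = ∏ z ∈ Z, (X - Polynomial.C z))
    (hne : ∀ z ∈ Z, ∀ s ∈ S, z ≠ s) {M C₂ : ℝ} (hM : 2 ≤ M) (T : ℕ) (hT : 1 ≤ T)
    (hch : ∀ v : ℂ, ‖v‖ ≤ (M ^ T)⁻¹ →
      (∀ s ∈ S, ∀ x : ℂ, ‖x‖ = 1 → G (s + v * x) ≤ C₂ / (f.natDegree : ℝ) ^ T) ∧
      (∀ s ∈ S, ∀ s' ∈ S, s ≠ s' → ∀ x y : ℂ, ‖x‖ = 1 → ‖y‖ = 1 →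
        Real.exp (-Real.log M) ≤ ‖(s + v * x) - (s' + v * y)‖)) (w : ℕ) (hw : 0 < w) :
    2 * (w * ∑ z ∈ Z, ∑ s ∈ S, Real.log ‖z - s‖) ≤ 2 +
      ((S.card : ℝ) * w) ^ 2 * (Real.log M + (T * Real.log M + Real.log 2)) +
      2 * ((Z.card + S.card * w) * (∑ z ∈ Z, G z + S.card * w * (C₂ / (f.natDegree : ℝ) ^ T) +
        (1 + 2 * (f.natDegree * C)) * (1 + Real.log (Z.card + S.card * w)))) := by
  classical
  have hM0 : 0 < M := by linarith
  have hMT : 0 < (M ^ T)⁻¹ := by positivity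
  have hlogM : 0 ≤ Real.log M := Real.log_nonneg (by linarith)
  -- the radius
  obtain ⟨δ, hδ1, hδ2⟩ : ∃ δ ∈ Set.Ioc ((M ^ T)⁻¹ / 2) (M ^ T)⁻¹,
      δ ∉ (((Z ×ˢ S).image fun p : ℂ × ℂ => ‖p.1 - p.2‖ : Finset ℝ) : Set ℝ) := by
    have h1 : (Set.Ioc ((M ^ T)⁻¹ / 2) (M ^ T)⁻¹).Infinite := Set.Ioc_infinite (by linarith)
    exact h1.exists_notMem_finset _
  have hδ0 : 0 < δ := by linarith [hδ1.1]
  have hδne : ∀ z ∈ Z, ∀ s ∈ S, ‖z - s‖ ≠ δ := by
    intro z hz s hs h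
    apply hδ2
    rw [Finset.mem_coe, Finset.mem_image]
    exact ⟨(z, s), Finset.mem_product.mpr ⟨hz, hs⟩, h⟩
  obtain ⟨v, hv1, hv2⟩ := exists_position Z S w hw δ hδ0 hne hδne
  have hvle : ‖v‖ ≤ (M ^ T)⁻¹ := by rw [hv1]; exact hδ1.2
  obtain ⟨hch1, hch2⟩ := hch v hvle
  have hv0 : v ≠ 0 := by
    rw [← norm_pos_iff, hv1]
    exact hδ0
  have hroot : ∀ x ∈ nthRootsFinset w (1 : ℂ), ‖x‖ = 1 := by
    intro x hx
    have h1 : x ^ w = 1 := (mem_nthRootsFinset hw _).mp hx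
    have h2 : ‖x‖ ^ w = 1 ^ w := by rw [← norm_pow, h1, norm_one, one_pow]
    exact (pow_left_inj₀ (norm_nonneg _) zero_le_one hw.ne').mp h2
  have hcard : (nthRootsFinset w (1 : ℂ)).card = w :=
    (Complex.isPrimitiveRoot_exp w hw.ne').card_nthRootsFinset
  have hv11 : ‖v‖ ≤ 1 := hvle.trans (inv_le_one_of_one_le₀ (one_le_pow₀ (by linarith)))
  have hce := charge_energy S w hw v hv0 hv11 (Real.log M) hlogM
    (fun s hs s' hs' hss x hx y hy => hch2 s hs s' hs' hss x y (hroot x hx) (hroot y hy))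
  -- the family of points
  let ι := (↥Z) ⊕ (↥S × ↥(nthRootsFinset w (1 : ℂ)))
  let P : ι → ℂ := Sum.elim (fun z => (z : ℂ)) (fun p => (p.1 : ℂ) + v * (p.2 : ℂ))
  have hPinj : Function.Injective P := by
    rintro (z | ⟨s, x⟩) (z' | ⟨s', x'⟩) h
    · have : (z : ℂ) = z' := h
      rw [Subtype.ext this]
    · exfalso
      have h1 : (z : ℂ) = (s' : ℂ) + v * (x' : ℂ) := h
      apply hδne z z.2 s' s'.2
      rw [h1, add_sub_cancel_left, norm_mul, hroot x' x'.2, mul_one, hv1]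
    · exfalso
      have h1 : (s : ℂ) + v * (x : ℂ) = (z' : ℂ) := h
      apply hδne z' z'.2 s s.2
      rw [← h1, add_sub_cancel_left, norm_mul, hroot x x.2, mul_one, hv1]
    · have h1 : (s : ℂ) + v * (x : ℂ) = (s' : ℂ) + v * (x' : ℂ) := h
      by_cases hss : (s : ℂ) = s'
      · rw [hss, add_right_inj, mul_right_inj' hv0] at h1
        rw [Subtype.ext hss, Subtype.ext h1]
      · exfalso
        have h2 := hch2 s s.2 s' s'.2 hss x x' (hroot x x.2) (hroot x' x'.2)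
        rw [h1, sub_self, norm_zero] at h2
        exact absurd h2 (not_le.mpr (Real.exp_pos _))
  have hne1 : Nonempty Z := hZ.to_subtype
  have hne' : Nonempty ι := ⟨Sum.inl (Classical.choice hne1)⟩
  have hE := energy_fintype f hg.monic hg.deg hg.hC hg.hG0 hg.hG1 hg.hG2 P hPinj
  have hcardι : Fintype.card ι = Z.card + S.card * w := by
    rw [Fintype.card_sum, Fintype.card_prod, Fintype.card_coe, Fintype.card_coe,
      Fintype.card_coe, hcard]
  rw [hcardι] at hE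
  -- the sum of the Green function
  have hGsum : ∑ i, G (P i) ≤ ∑ z ∈ Z, G z + S.card * w * (C₂ / (f.natDegree : ℝ) ^ T) := by
    rw [Fintype.sum_sum_type]
    refine add_le_add ?_ ?_
    · exact (Finset.sum_coe_sort Z G).le
    · refine (Finset.sum_le_card_nsmul _ _ (C₂ / (f.natDegree : ℝ) ^ T) fun p _ =>
        hch1 p.1 p.1.2 p.2 (hroot _ p.2.2)).trans (le_of_eq ?_)
      rw [Finset.card_univ, Fintype.card_prod, Fintype.card_coe, Fintype.card_coe, hcard,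
        nsmul_eq_mul]
      push_cast
      ring
  -- the energy
  have hEsum : ∑ i, ∑ j, Real.log ‖P i - P j‖ =
      ∑ z ∈ Z, ∑ z' ∈ Z, (if z = z' then 0 else Real.log ‖z - z'‖) +
      2 * ∑ z ∈ Z, ∑ s ∈ S, ∑ x ∈ nthRootsFinset w (1 : ℂ), Real.log ‖z - (s + v * x)‖ +
      ∑ s ∈ S, ∑ s' ∈ S, ∑ x ∈ nthRootsFinset w (1 : ℂ), ∑ y ∈ nthRootsFinset w (1 : ℂ),
        Real.log ‖(s + v * x) - (s' + v * y)‖ := by
    have e1 : ∑ z : Z, ∑ z' : Z, Real.log ‖(z : ℂ) - (z' : ℂ)‖ =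
        ∑ z ∈ Z, ∑ z' ∈ Z, (if z = z' then 0 else Real.log ‖z - z'‖) := by
      rw [← Finset.sum_coe_sort Z (fun z => ∑ w ∈ Z, (if z = w then 0 else Real.log ‖z - w‖))]
      refine Finset.sum_congr rfl fun z _ => ?_
      rw [← Finset.sum_coe_sort Z (fun w => if (z : ℂ) = w then 0 else Real.log ‖(z : ℂ) - w‖)]
      refine Finset.sum_congr rfl fun w _ => ?_
      by_cases h : (z : ℂ) = w
      · rw [if_pos h, h, sub_self, norm_zero, Real.log_zero]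
      · rw [if_neg h]
    have e2 : ∑ z : Z, ∑ p : ↥S × ↥(nthRootsFinset w (1 : ℂ)),
        Real.log ‖(z : ℂ) - ((p.1 : ℂ) + v * (p.2 : ℂ))‖ =
        ∑ z ∈ Z, ∑ s ∈ S, ∑ x ∈ nthRootsFinset w (1 : ℂ), Real.log ‖z - (s + v * x)‖ := by
      rw [← Finset.sum_coe_sort Z]
      refine Finset.sum_congr rfl fun z _ => ?_
      rw [Fintype.sum_prod_type, ← Finset.sum_coe_sort S]
      refine Finset.sum_congr rfl fun s _ => ?_
      rw [← Finset.sum_coe_sort (nthRootsFinset w (1 : ℂ))]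
    have e3 : ∑ p : ↥S × ↥(nthRootsFinset w (1 : ℂ)), ∑ z : Z,
        Real.log ‖((p.1 : ℂ) + v * (p.2 : ℂ)) - (z : ℂ)‖ =
        ∑ z ∈ Z, ∑ s ∈ S, ∑ x ∈ nthRootsFinset w (1 : ℂ), Real.log ‖z - (s + v * x)‖ := by
      rw [← e2, Finset.sum_comm]
      refine Finset.sum_congr rfl fun z _ => Finset.sum_congr rfl fun p _ => ?_
      rw [norm_sub_rev]
    have e4 : ∑ p : ↥S × ↥(nthRootsFinset w (1 : ℂ)), ∑ p' : ↥S × ↥(nthRootsFinset w (1 : ℂ)),
        Real.log ‖((p.1 : ℂ) + v * (p.2 : ℂ)) - ((p'.1 : ℂ) + v * (p'.2 : ℂ))‖ =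
        ∑ s ∈ S, ∑ s' ∈ S, ∑ x ∈ nthRootsFinset w (1 : ℂ), ∑ y ∈ nthRootsFinset w (1 : ℂ),
        Real.log ‖(s + v * x) - (s' + v * y)‖ := by
      rw [Fintype.sum_prod_type, ← Finset.sum_coe_sort S]
      refine Finset.sum_congr rfl fun s _ => ?_
      have e5 : ∀ x : ↥(nthRootsFinset w (1 : ℂ)),
          ∑ p' : ↥S × ↥(nthRootsFinset w (1 : ℂ)),
            Real.log ‖((s : ℂ) + v * (x : ℂ)) - ((p'.1 : ℂ) + v * (p'.2 : ℂ))‖ =
          ∑ s' ∈ S, ∑ y ∈ nthRootsFinset w (1 : ℂ),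
            Real.log ‖((s : ℂ) + v * (x : ℂ)) - (s' + v * y)‖ := by
        intro x
        rw [Fintype.sum_prod_type, ← Finset.sum_coe_sort S]
        refine Finset.sum_congr rfl fun s' _ => ?_
        rw [← Finset.sum_coe_sort (nthRootsFinset w (1 : ℂ))]
      rw [Finset.sum_congr rfl fun x _ => e5 x,
        Finset.sum_coe_sort (nthRootsFinset w (1 : ℂ)) (fun x => ∑ s' ∈ S,
          ∑ y ∈ nthRootsFinset w (1 : ℂ), Real.log ‖((s : ℂ) + v * x) - (s' + v * y)‖),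
        Finset.sum_comm]
    have e6 : ∑ i, ∑ j, Real.log ‖P i - P j‖ =
        (∑ z : Z, ∑ z' : Z, Real.log ‖(z : ℂ) - (z' : ℂ)‖ +
        ∑ z : Z, ∑ p : ↥S × ↥(nthRootsFinset w (1 : ℂ)),
          Real.log ‖(z : ℂ) - ((p.1 : ℂ) + v * (p.2 : ℂ))‖) +
        (∑ p : ↥S × ↥(nthRootsFinset w (1 : ℂ)), ∑ z : Z,
          Real.log ‖((p.1 : ℂ) + v * (p.2 : ℂ)) - (z : ℂ)‖ +
        ∑ p : ↥S × ↥(nthRootsFinset w (1 : ℂ)), ∑ p' : ↥S × ↥(nthRootsFinset w (1 : ℂ)),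
          Real.log ‖((p.1 : ℂ) + v * (p.2 : ℂ)) - ((p'.1 : ℂ) + v * (p'.2 : ℂ))‖) := by
      rw [Fintype.sum_sum_type, ← Finset.sum_add_distrib, ← Finset.sum_add_distrib]
      congr 1
      · refine Finset.sum_congr rfl fun z _ => ?_
        rw [Fintype.sum_sum_type]
        rfl
      · refine Finset.sum_congr rfl fun z _ => ?_
        rw [Fintype.sum_sum_type]
        rfl
    rw [e6, e1, e2, e3, e4]
    ring
  obtain ⟨hr0, hdsum⟩ := disc_sum Q Z hQ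
  have hZE : 0 ≤ ∑ z ∈ Z, ∑ z' ∈ Z, (if z = z' then 0 else Real.log ‖z - z'‖) := by
    rw [hdsum]
    apply Real.log_nonneg
    have := Int.one_le_abs hr0
    exact_mod_cast this
  rw [hEsum] at hE
  set N' : ℕ := Z.card + S.card * w with hN'
  have hN'1 : 1 ≤ N' := by
    have := Finset.card_pos.mpr hZ
    omega
  have h1 := natlog_le hN'1
  have h2 : 0 ≤ Real.log N' := Real.log_natCast_nonneg _
  have hc : 0 ≤ f.natDegree * C := mul_nonneg (Nat.cast_nonneg _) hg.hC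
  have h3 : Real.log N' + f.natDegree * C * (Nat.log 2 N' + 1) ≤
      (1 + 2 * (f.natDegree * C)) * (1 + Real.log N') := by
    have h4 := mul_le_mul_of_nonneg_left (add_le_add_left h1 1) hc
    nlinarith
  have hN'c : ((N' : ℕ) : ℝ) = Z.card + S.card * w := by
    rw [hN']
    push_cast
    ring
  have h5 : ((N' : ℕ) : ℝ) * ∑ i, G (P i) + N' * (Real.log N' + f.natDegree * C * (Nat.log 2 N' + 1)) ≤
      N' * (∑ z ∈ Z, G z + S.card * w * (C₂ / (f.natDegree : ℝ) ^ T) +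
        (1 + 2 * (f.natDegree * C)) * (1 + Real.log N')) := by
    rw [← mul_add]
    exact mul_le_mul_of_nonneg_left (add_le_add hGsum h3) (Nat.cast_nonneg _)
  -- the radius
  have hlogδ : Real.log (1 / ‖v‖) ≤ T * Real.log M + Real.log 2 := by
    rw [hv1, ← Real.log_pow, ← Real.log_mul (by positivity) two_ne_zero]
    apply Real.log_le_log (by positivity)
    rw [div_le_iff₀ hδ0]
    have h6 := hδ1.1
    have h7 : (M ^ T)⁻¹ < 2 * δ := by linarith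
    rw [inv_lt_iff_one_lt_mul₀ (by positivity)] at h7
    linarith
  have h8 : ((S.card : ℝ) * w) ^ 2 * (Real.log M + Real.log (1 / ‖v‖)) ≤
      ((S.card : ℝ) * w) ^ 2 * (Real.log M + (T * Real.log M + Real.log 2)) :=
    mul_le_mul_of_nonneg_left (by linarith) (by positivity)
  rw [← hN'c]
  linarith

/-- **the energy inequality with charges**, simplified -/
theorem energy_simple {f : ℤ[X]} {G : ℂ → ℝ} {C : ℝ} (hg : IsGreen f G C)
    (hG1' : ∀ z : ℂ, G z ≤ Real.posLog ‖z‖ + C) (S : Finset ℂ)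
    (hS : ∀ s ∈ S, aeval s f ∈ S) :
    ∃ A : ℝ, 1 ≤ A ∧ ∀ (Z : Finset ℂ), Z.Nonempty → ∀ (Q : ℤ[X]),
      Q.map (Int.castRingHom ℂ) = ∏ z ∈ Z, (X - Polynomial.C z) →
      (∀ z ∈ Z, ∀ s ∈ S, z ≠ s) → ∀ w : ℕ, 0 < w → w ≤ Z.card →
      w * ∑ z ∈ Z, ∑ s ∈ S, Real.log ‖z - s‖ ≤
        A * (((w : ℝ) ^ 2 + Z.card) * (1 + Real.log Z.card) + Z.card * ∑ z ∈ Z, G z) := by
  obtain ⟨M, C₂, hM, hC₂, hch⟩ := charges hg hG1' S hS
  set σ : ℝ := (S.card : ℝ) with hσ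
  have hσ0 : 0 ≤ σ := Nat.cast_nonneg _
  set E : ℝ := 1 + 2 * (f.natDegree * C) with hE
  have hc : 0 ≤ f.natDegree * C := mul_nonneg (Nat.cast_nonneg _) hg.hC
  have hE1 : 1 ≤ E := by linarith
  have hlogM : 0 ≤ Real.log M := Real.log_nonneg (by linarith)
  have hlogσ : 0 ≤ Real.log (1 + σ) := Real.log_nonneg (by linarith)
  refine ⟨1 + σ ^ 2 * (2 * Real.log M + 1) + (1 + σ) * (1 + σ * C₂ + E * (1 + Real.log (1 + σ))),
    ?_, ?_⟩
  · have h1 : 0 ≤ σ ^ 2 * (2 * Real.log M + 1) := by positivity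
    have h2 : 0 ≤ (1 + σ) * (1 + σ * C₂ + E * (1 + Real.log (1 + σ))) := by positivity
    linarith
  intro Z hZ Q hQ hne w hw hwZ
  set n : ℝ := (Z.card : ℝ) with hn
  have hZc : 1 ≤ Z.card := Finset.card_pos.mpr hZ
  have hn1 : 1 ≤ n := by rw [hn]; exact_mod_cast hZc
  have hwn : (w : ℝ) ≤ n := by rw [hn]; exact_mod_cast hwZ
  have hw1 : (1 : ℝ) ≤ w := by exact_mod_cast hw
  set T : ℕ := Nat.log 2 Z.card + 1 with hT
  have h := energy_charges hg S Z hZ Q hQ hne hM T (by omega) (hch T (by omega)) w hw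
  have hln : 0 ≤ Real.log n := Real.log_nonneg hn1
  set l : ℝ := 1 + Real.log n with hl
  have hl1 : 1 ≤ l := by linarith
  have hTl : (T : ℝ) ≤ 2 * l := by
    have h1 := natlog_le hZc
    rw [hT]
    push_cast
    linarith
  have hdT : (w : ℝ) * (C₂ / (f.natDegree : ℝ) ^ T) ≤ C₂ := by
    have hd2 : (2:ℝ) ≤ f.natDegree := by exact_mod_cast hg.deg
    have h1 : (Z.card : ℝ) ≤ 2 ^ T := by
      have h2 : Z.card < 2 ^ T := Nat.lt_pow_succ_log_self (by norm_num) _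
      exact_mod_cast h2.le
    have h2 : (2:ℝ) ^ T ≤ (f.natDegree : ℝ) ^ T := pow_le_pow_left₀ (by norm_num) hd2 T
    have h3 : (w : ℝ) ≤ (f.natDegree : ℝ) ^ T := by linarith
    rw [mul_div_assoc', div_le_iff₀ (by positivity), mul_comm C₂]
    exact mul_le_mul_of_nonneg_right h3 hC₂
  have hN' : n + σ * w ≤ (1 + σ) * n := by nlinarith
  have hN'0 : 0 < n + σ * w := by positivity
  have hlogN' : 1 + Real.log (n + σ * w) ≤ (1 + Real.log (1 + σ)) * l := by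
    have h1 := Real.log_le_log hN'0 hN'
    rw [Real.log_mul (by linarith) (by linarith)] at h1
    nlinarith
  have hsG : 0 ≤ ∑ z ∈ Z, G z := Finset.sum_nonneg fun z _ => hg.hG0 z
  set g : ℝ := ∑ z ∈ Z, G z with hgdef
  have hlog2 : Real.log 2 ≤ 1 := by
    have := Real.log_two_lt_d9
    linarith
  -- the first term
  have t1 : (σ * w) ^ 2 * (Real.log M + (T * Real.log M + Real.log 2)) ≤
      2 * (σ ^ 2 * (2 * Real.log M + 1)) * ((w : ℝ) ^ 2 * l) := by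
    have h1 : Real.log M + (T * Real.log M + Real.log 2) ≤ 2 * (2 * Real.log M + 1) * l := by
      have h2 : (T : ℝ) * Real.log M ≤ 2 * l * Real.log M := mul_le_mul_of_nonneg_right hTl hlogM
      nlinarith
    calc (σ * w) ^ 2 * (Real.log M + (T * Real.log M + Real.log 2)) ≤
        (σ * w) ^ 2 * (2 * (2 * Real.log M + 1) * l) := mul_le_mul_of_nonneg_left h1 (by positivity)
      _ = _ := by ring
  have t2 : (n + σ * w) * (g + σ * w * (C₂ / (f.natDegree : ℝ) ^ T) +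
      E * (1 + Real.log (n + σ * w))) ≤
      (1 + σ) * n * (g + (σ * C₂ + E * (1 + Real.log (1 + σ))) * l) := by
    have h1 : σ * w * (C₂ / (f.natDegree : ℝ) ^ T) ≤ σ * C₂ * l := by
      calc σ * w * (C₂ / (f.natDegree : ℝ) ^ T) = σ * (w * (C₂ / (f.natDegree : ℝ) ^ T)) := by ring
        _ ≤ σ * C₂ := mul_le_mul_of_nonneg_left hdT hσ0
        _ = σ * C₂ * 1 := by ring
        _ ≤ σ * C₂ * l := mul_le_mul_of_nonneg_left hl1 (by positivity)
    have h2 : E * (1 + Real.log (n + σ * w)) ≤ E * ((1 + Real.log (1 + σ)) * l) :=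
      mul_le_mul_of_nonneg_left hlogN' (by linarith)
    have h3 : 0 ≤ Real.log (n + σ * w) := by
      apply Real.log_nonneg
      have : 0 ≤ σ * w := by positivity
      linarith
    apply mul_le_mul hN' (by nlinarith) _ (by positivity)
    positivity
  rw [← hE] at h
  set p1 : ℝ := σ ^ 2 * (2 * Real.log M + 1) with hp1
  set p2 : ℝ := σ * C₂ + E * (1 + Real.log (1 + σ)) with hp2
  have hp10 : 0 ≤ p1 := by positivity
  have hp20 : 0 ≤ p2 := by positivity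
  have hgoal : (1 : ℝ) + p1 * ((w : ℝ) ^ 2 * l) + (1 + σ) * n * (g + p2 * l) ≤
      (1 + p1 + (1 + σ) * (1 + p2)) * (((w : ℝ) ^ 2 + n) * l + n * g) := by
    have a1 : 1 ≤ n * l := by nlinarith
    have a2 : 0 ≤ (w:ℝ) ^ 2 * l := by positivity
    have a3 : 0 ≤ n * g := by positivity
    have a4 : 0 ≤ n * l := by positivity
    have e1 : ((w : ℝ) ^ 2 + n) * l + n * g = (w:ℝ) ^ 2 * l + n * l + n * g := by ring
    rw [e1]
    set a := (w:ℝ) ^ 2 * l
    set b := n * l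
    set c' := n * g
    have e2 : (1 + σ) * n * (g + p2 * l) = (1 + σ) * c' + (1 + σ) * p2 * b := by
      simp only [c', b]; ring
    rw [e2]
    have b1 : 0 ≤ (1 + σ) * (1 + p2) := by positivity
    have b2 : 0 ≤ (1 + σ) * p2 := by positivity
    have c1 : 0 ≤ p1 * b := by positivity
    have c2 : 0 ≤ p1 * c' := by positivity
    have c3 : 0 ≤ (1 + σ) * (1 + p2) * a := by positivity
    have c4 : 0 ≤ (1 + σ) * b := by positivity
    have c5 : 0 ≤ (1 + σ) * p2 * c' := by positivity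
    nlinarith
  have hAeq : 1 + p1 + (1 + σ) * (1 + σ * C₂ + E * (1 + Real.log (1 + σ))) =
      1 + p1 + (1 + σ) * (1 + p2) := by rw [hp2]; ring
  rw [hAeq]
  refine le_trans ?_ hgoal
  nlinarith

end Pool.Agent.V1156.DL
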