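import Mathlib
import Pool.Agent.V1156.DL.Pot2

/-!
# Large values at preperiodic points, in number fields
-/

set_option autoImplicit false

open Finset Polynomial Module Filter Topology IntermediateField

namespace Pool.Agent.V1156.DL

open Pool.Agent.H388SL Pool.Agent.H389R3.LR Pool.Agent.H389R3.LP Pool.Agent.W666.DL
  Pool.Agent.W666.DY Pool.Agent.Y642.LZ Pool.Agent.Y642.DL

/-- the zeros of `b` -/
lemma exists_zeros (b : ℤ[X]) (hb : b.Monic) (hs : (b.map (Int.castRingHom ℂ)).roots.Nodup) :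
    ∃ S : Finset ℂ, b.map (Int.castRingHom ℂ) = ∏ s ∈ S, (X - Polynomial.C s) := by
  classical
  refine ⟨(b.map (Int.castRingHom ℂ)).roots.toFinset, ?_⟩
  have h1 := (IsAlgClosed.splits (b.map (Int.castRingHom ℂ))).eq_prod_roots_of_monic (hb.map _)
  conv_lhs => rw [h1]
  rw [Finset.prod_eq_multiset_prod, Multiset.toFinset_val, hs.dedup]

lemma aeval_prod {b : ℤ[X]} {S : Finset ℂ}
    (h : b.map (Int.castRingHom ℂ) = ∏ s ∈ S, (X - Polynomial.C s)) (z : ℂ) :
    aeval z b = ∏ s ∈ S, (z - s) := by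
  have h1 := congrArg (Polynomial.eval z) h
  rw [eval_map, eval_prod] at h1
  simp only [eval_sub, eval_X, eval_C] at h1
  exact h1

lemma mem_zeros {b : ℤ[X]} {S : Finset ℂ}
    (h : b.map (Int.castRingHom ℂ) = ∏ s ∈ S, (X - Polynomial.C s)) (z : ℂ) :
    z ∈ S ↔ aeval z b = 0 := by
  rw [aeval_prod h, Finset.prod_eq_zero_iff]
  constructor
  · intro hz
    exact ⟨z, hz, sub_self z⟩
  · rintro ⟨s, hs, h0⟩
    rw [sub_eq_zero] at h0
    rw [h0]
    exact hs

lemma zeros_invariant {f b : ℤ[X]} {S : Finset ℂ}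
    (h : b.map (Int.castRingHom ℂ) = ∏ s ∈ S, (X - Polynomial.C s)) (hdvd : b ∣ b.comp f) :
    ∀ s ∈ S, aeval s f ∈ S := by
  intro s hs
  rw [mem_zeros h] at hs ⊢
  obtain ⟨u, hu⟩ := hdvd
  rw [← aeval_comp, hu, map_mul, hs, zero_mul]

variable {K : Type*} [Field K] [NumberField K]

lemma sum_conj (β : K) (g : ℂ → ℝ) :
    ∑ σ : K →ₐ[ℚ] ℂ, g (σ β) = finrank ℚ⟮β⟯ K * ∑ z ∈ conjSet β, g z := by
  classical
  rw [sum_emb β g]
  congr 1
  have h1 : conjSet β = Finset.univ.image (vv β) := by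
    apply Finset.coe_injective
    rw [Finset.coe_image, Finset.coe_univ, Set.image_univ, ← vv_range]
    ext z
    rw [Finset.mem_coe, mem_conjSet]
    rfl
  rw [h1, Finset.sum_image fun x _ y _ h => vv_inj β h]

lemma sum_conj' (β : K) (g : ℂ → ℝ) :
    ∑ z ∈ conjSet β, g z =
      (minpoly ℚ β).natDegree / (finrank ℚ K : ℝ) * ∑ σ : K →ₐ[ℚ] ℂ, g (σ β) := by
  rw [sum_conj β g]
  have hdeg : finrank ℚ ℚ⟮β⟯ * finrank ℚ⟮β⟯ K = finrank ℚ K := finrank_mul_finrank ℚ ℚ⟮β⟯ K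
  rw [IntermediateField.adjoin.finrank (Algebra.IsIntegral.isIntegral (R := ℚ) β)] at hdeg
  have hdeg' : ((minpoly ℚ β).natDegree : ℝ) * finrank ℚ⟮β⟯ K = finrank ℚ K := by
    exact_mod_cast hdeg
  have hD0 : (0:ℝ) < finrank ℚ K := by exact_mod_cast (finrank_pos : 0 < finrank ℚ K)
  rw [← hdeg'] at hD0 ⊢
  have h1 : ((minpoly ℚ β).natDegree : ℝ) ≠ 0 := left_ne_zero_of_mul hD0.ne'
  have h2 : (finrank ℚ⟮β⟯ K : ℝ) ≠ 0 := right_ne_zero_of_mul hD0.ne'
  field_simp

/-- `b(f^m(α))` is a multiple of `b(α)` -/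
lemma value_iter {f b : ℤ[X]} (hdvd : b ∣ b.comp f) {α : K} (hα : IsIntegral ℤ α) (m : ℕ) :
    ∃ u : K, IsIntegral ℤ u ∧ aeval ((ph f)^[m] α) b = aeval α b * u := by
  obtain ⟨U, hU⟩ := hdvd
  induction m with
  | zero => exact ⟨1, isIntegral_one, by simp⟩
  | succ m ih =>
    obtain ⟨u, hu1, hu2⟩ := ih
    refine ⟨u * aeval ((ph f)^[m] α) U, hu1.mul (isIntegral_aevalZ (integral_ph hα f m) U), ?_⟩
    rw [Function.iterate_succ_apply']
    have h1 : aeval (ph f ((ph f)^[m] α)) b = aeval ((ph f)^[m] α) (b.comp f) := by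
      rw [aeval_comp]
    rw [h1, hU, map_mul, hu2]
    ring

/-- the values at a wandering point do not vanish -/
lemma value_ne {f b : ℤ[X]} {S : Finset ℂ}
    (h : b.map (Int.castRingHom ℂ) = ∏ s ∈ S, (X - Polynomial.C s)) (hdvd : b ∣ b.comp f)
    {α : K} (hw : Function.Injective fun n : ℕ => (ph f)^[n] α) (m : ℕ) :
    aeval ((ph f)^[m] α) b ≠ 0 := by
  intro h0
  obtain ⟨z, hz⟩ := conjSet_nonempty ((ph f)^[m] α)
  obtain ⟨σ, hσ⟩ := mem_conjSet.mp hz
  have hmem : ∀ j : ℕ, σ ((ph f)^[m + j] α) ∈ S := by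
    intro j
    induction j with
    | zero =>
      rw [mem_zeros h, add_zero]
      have h1 : aeval (σ ((ph f)^[m] α)) b = σ (aeval ((ph f)^[m] α) b) :=
        aeval_algHom_apply (σ.restrictScalars ℤ) _ b
      rw [h1, h0, map_zero]
    | succ j ih =>
      have h1 := zeros_invariant h hdvd _ ih
      have h2 : σ ((ph f)^[m + (j + 1)] α) = aeval (σ ((ph f)^[m + j] α)) f := by
        rw [← add_assoc, Function.iterate_succ_apply']
        exact (aeval_algHom_apply (σ.restrictScalars ℤ) _ f).symm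
      rw [h2]
      exact h1
  have hinj : Function.Injective fun j : ℕ => σ ((ph f)^[m + j] α) := by
    intro i j hij
    have h1 := σ.toRingHom.injective hij
    have h2 := hw h1
    omega
  exact Set.infinite_of_injective_forall_mem hinj hmem S.finite_toSet

/-- the logarithm of the absolute value of the norm of `b(α)` -/
noncomputable def logNorm (b : ℤ[X]) (α : K) : ℝ := ∑ z ∈ conjSet α, Real.log ‖aeval z b‖

lemma logNorm_eq (b : ℤ[X]) (β : K) :
    logNorm b β = (minpoly ℚ β).natDegree / (finrank ℚ K : ℝ) * NL (aeval β b) := by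
  unfold logNorm NL
  rw [sum_conj' β (fun z => Real.log ‖aeval z b‖)]
  congr 1
  refine Finset.sum_congr rfl fun σ _ => ?_
  have h1 : aeval (σ β) b = σ (aeval β b) := aeval_algHom_apply (σ.restrictScalars ℤ) _ b
  rw [h1]

/-- the norms do not decrease -/
lemma logNorm_iter {f b : ℤ[X]} (hdvd : b ∣ b.comp f) {α : K} (hα : IsIntegral ℤ α) (m : ℕ)
    (hne : aeval ((ph f)^[m] α) b ≠ 0)
    (hn : (minpoly ℚ ((ph f)^[m] α)).natDegree = (minpoly ℚ α).natDegree) :
    logNorm b α ≤ logNorm b ((ph f)^[m] α) := by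
  rw [logNorm_eq, logNorm_eq, hn]
  obtain ⟨u, hu1, hu2⟩ := value_iter hdvd hα m
  rw [hu2] at hne ⊢
  have h1 : aeval α b ≠ 0 := left_ne_zero_of_mul hne
  have h2 : u ≠ 0 := right_ne_zero_of_mul hne
  rw [NL_mul h1 h2]
  have h3 := NL_nonneg hu1 h2
  exact mul_le_mul_of_nonneg_left (by linarith) (by positivity)

/-- **the main inequality** -/
theorem large_value {f : ℤ[X]} {G : ℂ → ℝ} {C : ℝ} (hg : IsGreen f G C)
    (hG1' : ∀ z : ℂ, G z ≤ Real.posLog ‖z‖ + C) (b : ℤ[X]) (S : Finset ℂ)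
    (hS : b.map (Int.castRingHom ℂ) = ∏ s ∈ S, (X - Polynomial.C s)) (hdvd : b ∣ b.comp f) :
    ∃ A : ℝ, 1 ≤ A ∧ ∀ {K : Type} [Field K] [NumberField K] {α : K}, IsIntegral ℤ α →
      ∀ (n k w : ℕ), n = (minpoly ℚ α).natDegree → 1 ≤ k →
      Set.PairwiseDisjoint (↑(Finset.range k)) (fun m => conjSet ((ph f)^[m] α)) →
      (∀ m < k, aeval ((ph f)^[m] α) b ≠ 0) →
      (∀ m < k, (minpoly ℚ ((ph f)^[m] α)).natDegree = n) → 1 ≤ w → w ≤ n * k →
      (w : ℝ) * (k * logNorm b α) ≤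
        A * (((w : ℝ) ^ 2 + n * k) * (1 + Real.log (n * k)) +
          n * k * (n * (f.natDegree ^ k * hG G α))) := by
  classical
  obtain ⟨A, hA, hmain⟩ := energy_simple hg hG1' S (zeros_invariant hS hdvd)
  refine ⟨A, hA, ?_⟩
  intro K _ _ α hα n k w hn hk hdisj hne hcount hw1 hw2
  set Z : Finset ℂ := (Finset.range k).biUnion fun m => conjSet ((ph f)^[m] α) with hZ
  set Q : ℤ[X] := ∏ m ∈ Finset.range k, minpoly ℤ ((ph f)^[m] α) with hQ
  have hQmap : Q.map (Int.castRingHom ℂ) = ∏ z ∈ Z, (X - Polynomial.C z) := by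
    rw [hQ, Polynomial.map_prod, hZ, Finset.prod_biUnion hdisj]
    exact Finset.prod_congr rfl fun m _ => minpolyZ_map (integral_ph hα f m)
  have hZne : Z.Nonempty := by
    obtain ⟨z, hz⟩ := conjSet_nonempty ((ph f)^[0] α)
    exact ⟨z, Finset.mem_biUnion.mpr ⟨0, Finset.mem_range.mpr (by omega), hz⟩⟩
  have hcard : Z.card = n * k := by
    rw [hZ, Finset.card_biUnion hdisj, Finset.sum_congr rfl (g := fun _ => n) fun m hm => ?_]
    · rw [Finset.sum_const, Finset.card_range, smul_eq_mul, mul_comm]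
    · rw [card_conjSet (integral_ph hα f m), hcount m (Finset.mem_range.mp hm)]
  have hb0 : ∀ m ∈ Finset.range k, ∀ z ∈ conjSet ((ph f)^[m] α), aeval z b ≠ 0 := by
    intro m hm z hz
    obtain ⟨σ, hσ⟩ := mem_conjSet.mp hz
    rw [← hσ]
    have h1 : aeval (σ ((ph f)^[m] α)) b = σ (aeval ((ph f)^[m] α) b) :=
      aeval_algHom_apply (σ.restrictScalars ℤ) _ b
    rw [h1]
    exact (map_ne_zero σ).mpr (hne m (Finset.mem_range.mp hm))
  have hZS : ∀ z ∈ Z, ∀ s ∈ S, z ≠ s := by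
    intro z hz s hs h
    rw [hZ, Finset.mem_biUnion] at hz
    obtain ⟨m, hm, hz⟩ := hz
    apply hb0 m hm z hz
    rw [h]
    exact (mem_zeros hS s).mp hs
  have h := hmain Z hZne Q hQmap hZS w (by omega) (by rw [hcard]; exact hw2)
  rw [hcard] at h
  push_cast at h
  -- the values
  have hval : (k : ℝ) * logNorm b α ≤ ∑ z ∈ Z, ∑ s ∈ S, Real.log ‖z - s‖ := by
    have h1 : ∑ z ∈ Z, ∑ s ∈ S, Real.log ‖z - s‖ = ∑ m ∈ Finset.range k,
        logNorm b ((ph f)^[m] α) := by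
      rw [hZ, Finset.sum_biUnion hdisj]
      refine Finset.sum_congr rfl fun m hm => ?_
      unfold logNorm
      refine Finset.sum_congr rfl fun z hz => ?_
      rw [aeval_prod hS z, norm_prod, Real.log_prod]
      intro s hs
      rw [norm_ne_zero_iff, sub_ne_zero]
      exact hZS z (Finset.mem_biUnion.mpr ⟨m, hm, hz⟩) s hs
    rw [h1]
    calc (k : ℝ) * logNorm b α = ∑ m ∈ Finset.range k, logNorm b α := by
          rw [Finset.sum_const, Finset.card_range, nsmul_eq_mul]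
      _ ≤ _ := Finset.sum_le_sum fun m hm => logNorm_iter hdvd hα m
          (hne m (Finset.mem_range.mp hm)) (by rw [hcount m (Finset.mem_range.mp hm), hn])
  -- the heights
  have hd2 : (2:ℝ) ≤ f.natDegree := by exact_mod_cast hg.deg
  have hhG : 0 ≤ hG G α := div_nonneg (Finset.sum_nonneg fun σ _ => hg.hG0 _) (Nat.cast_nonneg _)
  have hgeo : ∑ m ∈ Finset.range k, (f.natDegree : ℝ) ^ m ≤ (f.natDegree : ℝ) ^ k := by
    have h1 : ∀ k : ℕ, ∑ m ∈ Finset.range k, (f.natDegree : ℝ) ^ m ≤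
        (f.natDegree : ℝ) ^ k - 1 := by
      intro k
      induction k with
      | zero => simp
      | succ k ih =>
        rw [Finset.sum_range_succ, pow_succ]
        have : (0:ℝ) < (f.natDegree:ℝ) ^ k := by positivity
        nlinarith
    linarith [h1 k]
  have hsum : ∑ z ∈ Z, G z ≤ n * (f.natDegree ^ k * hG G α) := by
    rw [hZ, Finset.sum_biUnion hdisj]
    have h1 : ∀ m ∈ Finset.range k, ∑ z ∈ conjSet ((ph f)^[m] α), G z ≤
        n * ((f.natDegree : ℝ) ^ m * hG G α) := by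
      intro m _
      rw [hn]
      exact sum_green f hg.hG0 hg.hG2 α m
    refine (Finset.sum_le_sum h1).trans ?_
    rw [← Finset.mul_sum, ← Finset.sum_mul]
    exact mul_le_mul_of_nonneg_left (mul_le_mul_of_nonneg_right hgeo hhG) (Nat.cast_nonneg _)
  have h2 : (w : ℝ) * (k * logNorm b α) ≤ w * ∑ z ∈ Z, ∑ s ∈ S, Real.log ‖z - s‖ :=
    mul_le_mul_of_nonneg_left hval (Nat.cast_nonneg _)
  refine h2.trans (h.trans ?_)
  have h3 : (n : ℝ) * k * ∑ z ∈ Z, G z ≤ n * k * (n * (f.natDegree ^ k * hG G α)) :=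
    mul_le_mul_of_nonneg_left hsum (by positivity)
  exact mul_le_mul_of_nonneg_left (by linarith) (by linarith)

end Pool.Agent.V1156.DL
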