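import Mathlib
import Pool.Agent.V1156.DL.Fld

/-!
# Polynomials congruent to `X ^ q + c` modulo `p` and few zeros modulo `p`
-/

set_option autoImplicit false

open Finset Polynomial Module Filter Topology IntermediateField

namespace Pool.Agent.V1156.DL

open Pool.Agent.H388SL Pool.Agent.H389R3.LR Pool.Agent.H389R3.LP Pool.Agent.W666.DL
  Pool.Agent.W666.DY Pool.Agent.Y642.LZ Pool.Agent.Y642.DL

lemma aeval_iter (f : ℤ[X]) {A : Type*} [CommRing A] (x : A) (m : ℕ) :
    aeval x (f.comp^[m] X) = (ph f)^[m] x := by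
  induction m with
  | zero => simp
  | succ m ih =>
    rw [Function.iterate_succ_apply', Function.iterate_succ_apply', aeval_comp, ih]

lemma int_aeval {L : Type*} [Field L] {α : L} (hα : IsIntegral ℤ α) (B : ℤ[X]) :
    IsIntegral ℤ (aeval α B) := by
  have : aeval α B = algebraMap (integralClosure ℤ L) L
      (aeval (⟨α, hα⟩ : integralClosure ℤ L) B) := by
    rw [← aeval_algebraMap_apply]
    rfl
  rw [this]
  exact (aeval (⟨α, hα⟩ : integralClosure ℤ L) B).2

/-- the iterates modulo `p` -/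
lemma iter_mod {p : ℕ} [Fact p.Prime] (f : ℤ[X]) (k : ℕ) (c : ZMod p)
    (hfp : f.map (Int.castRingHom (ZMod p)) = X ^ p ^ k + C c) (t : ℕ) :
    ∃ c' : ZMod p, (f.comp^[t] X).map (Int.castRingHom (ZMod p)) = X ^ p ^ (k * t) + C c' := by
  induction t with
  | zero => exact ⟨0, by simp⟩
  | succ t ih =>
    obtain ⟨c', hc⟩ := ih
    refine ⟨c' ^ p ^ k + c, ?_⟩
    rw [Function.iterate_succ_apply', Polynomial.map_comp, hfp, hc, add_comp, pow_comp, X_comp,
      C_comp, add_pow_char_pow, ← pow_mul, ← pow_add, map_add, map_pow, add_assoc]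
    congr 2

/-- the auxiliary polynomial -/
lemma exists_auxF {p : ℕ} [Fact p.Prime] (f : ℤ[X]) (k : ℕ) (c : ZMod p)
    (hfp : f.map (Int.castRingHom (ZMod p)) = X ^ p ^ k + C c) (t : ℕ) (A Φ : (ZMod p)[X])
    (hΦ : Φ.Monic) (hA : A ∣ Φ ^ p ^ (k * t)) :
    ∃ G : ℤ[X], G.Monic ∧ G.natDegree = Φ.natDegree ∧
      A ∣ (G.comp (f.comp^[t] X)).map (Int.castRingHom (ZMod p)) := by
  have hp : p.Prime := Fact.out
  obtain ⟨c', hc⟩ := iter_mod f k c hfp t
  obtain ⟨G, h1, h2, h3⟩ := Pool.Agent.TH860.LQ.exists_lift hp (Φ.comp (X - C c'))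
    (hΦ.comp_X_sub_C c')
  refine ⟨G, h1, ?_, ?_⟩
  · rw [h2, natDegree_comp, natDegree_X_sub_C, mul_one]
  · rw [Polynomial.map_comp, h3, hc, comp_assoc]
    have : (X - C c' : (ZMod p)[X]).comp (X ^ p ^ (k * t) + C c') = X ^ p ^ (k * t) := by
      rw [sub_comp, X_comp, C_comp]
      ring
    rw [this, Pool.Agent.TH860.LQ.comp_pow_mod hp]
    exact hA

/-- the values of the auxiliary polynomial -/
lemma value_of_dvd {p : ℕ} [Fact p.Prime] (f : ℤ[X]) {K : Type*} [Field K] [NumberField K] {α : K}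
    (hα : IsIntegral ℤ α) (t : ℕ) (G : ℤ[X])
    (h : (minpoly ℤ α).map (Int.castRingHom (ZMod p)) ∣
      (G.comp (f.comp^[t] X)).map (Int.castRingHom (ZMod p))) :
    ∃ δ : K, IsIntegral ℤ δ ∧ aeval ((ph f)^[t] α) G = p * δ := by
  obtain ⟨U, hU⟩ := h
  obtain ⟨U', hU'⟩ := Pool.Agent.TH53.HR.exists_lift p U
  obtain ⟨B, hB⟩ := Pool.Agent.TH53.HR.exists_mul_of_map_eq p
    (P := G.comp (f.comp^[t] X)) (Q := minpoly ℤ α * U') (by
      rw [hU, Polynomial.map_mul, hU'])
  refine ⟨aeval α B, int_aeval hα B, ?_⟩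
  have h1 := congrArg (aeval α) hB
  rw [aeval_comp, aeval_iter, map_add, map_mul, map_mul, minpoly.aeval, zero_mul, zero_add,
    aeval_C] at h1
  rw [h1]
  simp

lemma log_ratio {x y : ℝ} (hx : 1 ≤ x) (hxy : x ≤ y) : x * (1 + Real.log y) ≤ y * (1 + Real.log x) := by
  have hx0 : 0 < x := by linarith
  have hy0 : 0 < y := by linarith
  have h1 : Real.log y ≤ Real.log x + (y - x) / x := by
    have h2 : Real.log (y / x) ≤ y / x - 1 := Real.log_le_sub_one_of_pos (by positivity)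
    rw [Real.log_div hy0.ne' hx0.ne'] at h2
    have h3 : y / x - 1 = (y - x) / x := by field_simp
    linarith
  have h4 : x * Real.log y ≤ x * Real.log x + (y - x) := by
    have := mul_le_mul_of_nonneg_left h1 hx0.le
    rwa [mul_add, mul_div_cancel₀ _ hx0.ne'] at this
  have h5 : 0 ≤ Real.log x := Real.log_nonneg hx
  nlinarith

/-- the inequality with a lower bound `N` for the number of conjugates -/
lemma mono_N {x N D lq a A : ℝ} (hN : 1 ≤ N) (hx : N ≤ x) (hD : 0 ≤ D) (hlq : 0 ≤ lq)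
    (hA : 0 ≤ A)
    (h : (x - D) * lq ≤ 2 * D * (x * a + A * (1 + Real.log x))) :
    (N - D) * lq ≤ 2 * D * (N * a + A * (1 + Real.log N)) := by
  have hx0 : 0 < x := by linarith
  have h1 := log_ratio hN hx
  have h2 : x * ((N - D) * lq) ≤ x * (2 * D * (N * a + A * (1 + Real.log N))) := by
    have h3 : x * ((N - D) * lq) ≤ N * ((x - D) * lq) := by
      have : 0 ≤ D * lq * (x - N) := mul_nonneg (mul_nonneg hD hlq) (by linarith)
      nlinarith
    have h4 := mul_le_mul_of_nonneg_left h (by linarith : 0 ≤ N)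
    have h5 : N * (2 * D * (x * a + A * (1 + Real.log x))) ≤
        x * (2 * D * (N * a + A * (1 + Real.log N))) := by
      have h6 := mul_le_mul_of_nonneg_left h1 (mul_nonneg hD hA)
      nlinarith
    linarith
  exact le_of_mul_le_mul_left h2 hx0

/-- **few zeros modulo `p`, basic inequality** -/
theorem frob_ineq {f : ℤ[X]} {G₀ : ℂ → ℝ} {C₀ : ℝ} (hg : IsGreen f G₀ C₀) {p : ℕ} [Fact p.Prime]
    (k : ℕ) (c : ZMod p) (hfp : f.map (Int.castRingHom (ZMod p)) = X ^ p ^ k + C c)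
    {K : Type*} [Field K] [NumberField K] {α : K} (hα : IsIntegral ℤ α) (t : ℕ) (N : ℕ)
    (hN1 : 1 ≤ N) (hN : N ≤ (minpoly ℚ ((ph f)^[t] α)).natDegree) :
    ∃ D : ℕ, 0 < D ∧ p ^ (k * t) * D ≤ (minpoly ℤ α).natDegree + (p ^ (k * t) - 1) *
        Pool.Agent.TH53.HR.rdeg ((minpoly ℤ α).map (Int.castRingHom (ZMod p))) ∧
      ((N : ℝ) - D) * Real.log p ≤ 2 * D * (N * ((f.natDegree : ℝ) ^ t * hG G₀ α) +
        (1 + 2 * (f.natDegree * C₀)) * (1 + Real.log N)) := by
  classical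
  have hp : p.Prime := Fact.out
  set g := (minpoly ℤ α).map (Int.castRingHom (ZMod p)) with hgdef
  have hgm : g.Monic := (minpoly.monic hα).map _
  have hgd : g.natDegree = (minpoly ℤ α).natDegree := (minpoly.monic hα).natDegree_map _
  obtain ⟨Φ, hΦm, hgΦ, hΦd⟩ := Pool.Agent.TH53.SL.root_poly g hgm (p ^ (k * t))
    (Nat.one_le_pow _ _ hp.pos)
  rw [hgd] at hΦd
  have hdeg : 0 < (minpoly ℤ α).natDegree := minpoly.natDegree_pos hα
  have hΦ0 : 0 < Φ.natDegree := by
    by_contra h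
    have h3 : Φ.natDegree = 0 := by omega
    have h4 := hΦm.natDegree_eq_zero.mp h3
    rw [h4, one_pow] at hgΦ
    have h5 := natDegree_le_of_dvd hgΦ one_ne_zero
    rw [natDegree_one, hgd] at h5
    omega
  obtain ⟨G, hG1, hG2, hG3⟩ := exists_auxF f k c hfp t g Φ hΦm hgΦ
  have hval := value_of_dvd f hα t G hG3
  have hmain := field_q hg hα t G hG1 (by omega) p hp.one_lt hval _ rfl
  rw [hG2] at hmain
  refine ⟨Φ.natDegree, hΦ0, hΦd, ?_⟩
  have hc : 0 ≤ 1 + 2 * (f.natDegree * C₀) := by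
    have := mul_nonneg (Nat.cast_nonneg (α := ℝ) f.natDegree) hg.hC
    linarith
  exact mono_N (by exact_mod_cast hN1) (by exact_mod_cast hN) (Nat.cast_nonneg _)
    (Real.log_nonneg (by exact_mod_cast hp.one_lt.le)) hc hmain

/-- **few zeros modulo `p`** -/
theorem few_zeros {f : ℤ[X]} {G₀ : ℂ → ℝ} {C₀ : ℝ} (hg : IsGreen f G₀ C₀) {p : ℕ} [Fact p.Prime]
    (k : ℕ) (hk : 1 ≤ k) (c : ZMod p)
    (hfp : f.map (Int.castRingHom (ZMod p)) = X ^ p ^ k + C c) (A B : ℝ)
    (hA : A = 1 + 2 * (f.natDegree * C₀)) (hB : B = max 4 (16 * A / Real.log p))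
    {K : Type*} [Field K] [NumberField K] {α : K} (hα : IsIntegral ℤ α) (N : ℕ)
    (hN1 : 1 ≤ N) (hN : ∀ t : ℕ, N ≤ (minpoly ℚ ((ph f)^[t] α)).natDegree)
    (hs : B * Pool.Agent.TH53.HR.rdeg ((minpoly ℤ α).map (Int.castRingHom (ZMod p))) *
      (1 + Real.log N) ≤ N) :
    Real.log p / (8 * (p ^ k + 1) * (minpoly ℤ α).natDegree) ≤ hG G₀ α := by
  have hp : p.Prime := Fact.out
  set n := (minpoly ℤ α).natDegree with hn
  set s := Pool.Agent.TH53.HR.rdeg ((minpoly ℤ α).map (Int.castRingHom (ZMod p))) with hs'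
  have hn0 : 0 < n := minpoly.natDegree_pos hα
  have hn0' : (0 : ℝ) < n := by exact_mod_cast hn0
  have hN1' : (1 : ℝ) ≤ N := by exact_mod_cast hN1
  have hlN : 0 ≤ Real.log N := Real.log_nonneg hN1'
  have hp1 : (1 : ℝ) < p := by exact_mod_cast hp.one_lt
  have hlp : 0 < Real.log p := Real.log_pos hp1
  have hA1 : 1 ≤ A := by
    rw [hA]
    have := mul_nonneg (Nat.cast_nonneg (α := ℝ) f.natDegree) hg.hC
    linarith
  have hB4 : 4 ≤ B := by rw [hB]; exact le_max_left _ _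
  have hBA : 16 * A ≤ B * Real.log p := by
    have : 16 * A / Real.log p ≤ B := by rw [hB]; exact le_max_right _ _
    rwa [div_le_iff₀ hlp] at this
  have hfd : f.natDegree = p ^ k := by
    rw [← hg.monic.natDegree_map (Int.castRingHom (ZMod p)), hfp]
    exact natDegree_X_pow_add_C
  -- degree of `α` over `ℚ` is `n`
  have hNn : N ≤ n := by
    have h1 := hN 0
    rw [Function.iterate_zero, id_eq, minpoly.isIntegrallyClosed_eq_field_fractions' ℚ hα,
      (minpoly.monic hα).natDegree_map] at h1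
    exact h1
  have hNn' : (N : ℝ) ≤ n := by exact_mod_cast hNn
  -- the choice of `t`
  set X₀ : ℝ := n / N * (B * (1 + Real.log N)) with hX₀
  have hX1 : 1 ≤ X₀ := by
    have h1 : 1 ≤ (n : ℝ) / N := by rw [le_div_iff₀ (by linarith)]; linarith
    have h2 : 1 ≤ B * (1 + Real.log N) := by nlinarith
    calc (1 : ℝ) = 1 * 1 := by ring
      _ ≤ _ := mul_le_mul h1 h2 (by norm_num) (by linarith)
  have hq2 : 1 < p ^ k := Nat.one_lt_pow (by omega) hp.one_lt
  have hq2' : (1 : ℝ) < (p : ℝ) ^ k := by exact_mod_cast hq2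
  obtain ⟨t, ht1, ht2⟩ : ∃ t : ℕ, X₀ ≤ ((p : ℝ) ^ k) ^ t ∧ ((p : ℝ) ^ k) ^ t ≤ (p : ℝ) ^ k * X₀ := by
    obtain ⟨t0, h1, h2⟩ := exists_nat_pow_near hX1 hq2'
    refine ⟨t0 + 1, h2.le, ?_⟩
    rw [pow_succ, mul_comm]
    exact mul_le_mul_of_nonneg_left h1 (by linarith)
  set m : ℝ := ((p : ℝ) ^ k) ^ t with hm
  have hm0 : 0 < m := by positivity
  obtain ⟨D, hD0, hD1, hD2⟩ := frob_ineq hg k c hfp hα t N hN1 (hN t)
  rw [← hA] at hD2
  have hD0' : (0 : ℝ) < D := by exact_mod_cast hD0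
  have hmD : m * D ≤ n + m * s := by
    have h1 : p ^ (k * t) * D ≤ n + p ^ (k * t) * s :=
      hD1.trans (Nat.add_le_add_left (Nat.mul_le_mul_right _ (Nat.sub_le _ _)) _)
    have h2 : ((p ^ (k * t) * D : ℕ) : ℝ) ≤ ((n + p ^ (k * t) * s : ℕ) : ℝ) := by exact_mod_cast h1
    push_cast at h2
    rw [pow_mul] at h2
    exact h2
  -- `D ≤ N / (2 ...)`
  have hDN : B * (1 + Real.log N) * D ≤ 2 * N := by
    have h1 : B * (1 + Real.log N) * (m * D) ≤ B * (1 + Real.log N) * (n + m * s) :=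
      mul_le_mul_of_nonneg_left hmD (by positivity)
    have h2 : B * (1 + Real.log N) * n ≤ m * N := by
      have h3 : X₀ * N = B * (1 + Real.log N) * n := by
        rw [hX₀]
        field_simp
      rw [← h3]
      exact mul_le_mul_of_nonneg_right ht1 (by linarith)
    have h4 : B * (1 + Real.log N) * (m * s) ≤ m * N := by
      have := mul_le_mul_of_nonneg_left hs hm0.le
      nlinarith
    have h5 : m * (B * (1 + Real.log N) * D) ≤ m * (2 * N) := by nlinarith
    exact le_of_mul_le_mul_left h5 hm0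
  have hDN2 : 2 * (D : ℝ) ≤ N := by
    have h1 : 4 * (D : ℝ) ≤ B * (1 + Real.log N) * D := by
      apply mul_le_mul_of_nonneg_right _ hD0'.le
      nlinarith
    linarith
  have hDA : 8 * A * D * (1 + Real.log N) ≤ N * Real.log p := by
    have h1 : 16 * A * (D * (1 + Real.log N)) ≤ B * Real.log p * (D * (1 + Real.log N)) :=
      mul_le_mul_of_nonneg_right hBA (by positivity)
    have h2 : Real.log p * (B * (1 + Real.log N) * D) ≤ Real.log p * (2 * N) :=
      mul_le_mul_of_nonneg_left hDN hlp.le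
    nlinarith
  -- the conclusion
  have hmf : (f.natDegree : ℝ) ^ t = m := by
    rw [hfd, hm]
    push_cast
    rfl
  rw [hmf] at hD2
  have hG0 : 0 ≤ hG G₀ α := div_nonneg (Finset.sum_nonneg fun σ _ => hg.hG0 _) (Nat.cast_nonneg _)
  have h7 : (N : ℝ) / 2 * Real.log p ≤ ((N : ℝ) - D) * Real.log p :=
    mul_le_mul_of_nonneg_right (by linarith) hlp.le
  have h8 : (N : ℝ) * Real.log p ≤ N * (8 * (D * m) * hG G₀ α) := by nlinarith
  have h9 := le_of_mul_le_mul_left h8 (by linarith)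
  have h10 : D * m ≤ (p ^ k + 1) * n := by
    have h11 : m * s ≤ p ^ k * n := by
      have h12 : m * s ≤ (p : ℝ) ^ k * X₀ * s := mul_le_mul_of_nonneg_right ht2 (Nat.cast_nonneg _)
      have h13 : X₀ * s ≤ n := by
        have h14 : X₀ * s = n / N * (B * s * (1 + Real.log N)) := by
          rw [hX₀]; ring
        rw [h14]
        calc (n : ℝ) / N * (B * s * (1 + Real.log N)) ≤ n / N * N :=
              mul_le_mul_of_nonneg_left hs (by positivity)
          _ = n := by field_simp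
      have h15 : (p : ℝ) ^ k * (X₀ * s) ≤ (p : ℝ) ^ k * n :=
        mul_le_mul_of_nonneg_left h13 (by positivity)
      nlinarith
    nlinarith
  rw [div_le_iff₀ (by positivity)]
  calc Real.log p ≤ 8 * (D * m) * hG G₀ α := h9
    _ ≤ 8 * ((p ^ k + 1) * n) * hG G₀ α := by
        apply mul_le_mul_of_nonneg_right _ hG0
        linarith
    _ = _ := by ring

end Pool.Agent.V1156.DL
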