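import Mathlib
import Pool.Agent.V1156.DL.Frob

/-!
# Local factors modulo `p`
-/

set_option autoImplicit false

open Finset Polynomial Module Filter Topology IntermediateField

namespace Pool.Agent.V1156.DL

open Pool.Agent.H388SL Pool.Agent.H389R3.LR Pool.Agent.H389R3.LP Pool.Agent.W666.DL
  Pool.Agent.W666.DY Pool.Agent.Y642.LZ Pool.Agent.Y642.DL

/-- **local factors, basic inequality** -/
theorem loc_ineq {f : ℤ[X]} {G₀ : ℂ → ℝ} {C₀ : ℝ} (hg : IsGreen f G₀ C₀) {p : ℕ} (hp : p.Prime)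
    {K : Type*} [Field K] [NumberField K] {α : K} (hα : IsIntegral ℤ α) (hgen : ℚ⟮α⟯ = ⊤)
    (m : ℕ) (A B : (ZMod p)[X])
    (hAB : (minpoly ℤ α).map (Int.castRingHom (ZMod p)) = A * B)
    (hco : IsCoprime A B) (G : ℤ[X]) (hGm : G.Monic) (hG0 : 0 < G.natDegree)
    (hAG : A ∣ (G.comp (f.comp^[m] X)).map (Int.castRingHom (ZMod p)))
    (N : ℕ) (hN : N = (minpoly ℚ ((ph f)^[m] α)).natDegree) (n : ℕ) (hn : n = finrank ℚ K) :
    (A.natDegree : ℝ) * (A.natDegree * N - 2 * G.natDegree * n) * Real.log p ≤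
      2 * G.natDegree * n ^ 2 * (N * ((f.natDegree : ℝ) ^ m * hG G₀ α) +
        (1 + 2 * (f.natDegree * C₀)) * (1 + Real.log N)) := by
  classical
  have hαc : CInj α := by
    intro σ τ h
    have h2 : Algebra.adjoin ℚ {α} = ⊤ := by
      rw [← adjoin_simple_toSubalgebra_of_isAlgebraic (Algebra.IsAlgebraic.isAlgebraic (R := ℚ) α),
        hgen, top_toSubalgebra]
    refine AlgHom.ext_of_adjoin_eq_top h2 (fun x hx => ?_)
    rw [Set.mem_singleton_iff] at hx
    subst hx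
    exact h
  have hpmap : (minpoly ℤ α).map (Int.castRingHom ℂ) = ∏ τ : K →ₐ[ℚ] ℂ, (X - C (τ α)) := by
    rw [← minpoly_map_eq hαc, minpoly.isIntegrallyClosed_eq_field_fractions' ℚ hα,
      Polynomial.map_map]
    rfl
  obtain ⟨V, hV⟩ := Pool.Agent.TH53.HR.exists_val p hp
  have hαV : ∀ σ : K →ₐ[ℚ] ℂ, σ α ∈ V := fun σ => hV.int _ (hα.map (σ.restrictScalars ℤ))
  set β := (ph f)^[m] α with hβ
  let good : ℂ → Prop := fun y => aeval y G / p ∈ V
  have hσβ : ∀ σ : K →ₐ[ℚ] ℂ, σ β = (ph f)^[m] (σ α) := fun σ => ph_hom (σ : K →+* ℂ) f m α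
  set S : Finset (K →ₐ[ℚ] ℂ) := Finset.univ.filter fun σ => good (σ β) with hS
  have hcount : A.natDegree ≤ S.card := by
    refine Pool.Agent.TH53.HR.count_good hp hV (minpoly ℤ α)
      (fun σ : K →ₐ[ℚ] ℂ => (⟨σ α, hαV σ⟩ : V)) hpmap A B hAB hco
      (G.comp (f.comp^[m] X)) 1 (by rw [pow_one]; exact hAG) S (fun σ hσ => ?_)
    rw [hS, Finset.mem_filter]
    refine ⟨Finset.mem_univ _, ?_⟩
    rw [pow_one, aeval_comp, aeval_iter] at hσ
    rw [hσβ]
    exact hσ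
  set T : Finset (ℚ⟮β⟯ →ₐ[ℚ] ℂ) := Finset.univ.filter fun τ => good (vv β τ) with hT
  have hne := vv_nonempty β
  have hgenq := gen_loc hg hp hV (vv β) (vv_inj β) (fun τ => vv_int (int_iter hα m) τ)
    (fun j => vv_sums (int_iter hα m) j) Tᶜ G hGm hG0 (fun τ hτ => by
    rw [Finset.mem_compl, not_not, hT, Finset.mem_filter] at hτ
    exact hτ.2)
  have hTc : ((Fintype.card (ℚ⟮β⟯ →ₐ[ℚ] ℂ) : ℝ) - (Tᶜ.card : ℝ)) = T.card := by
    rw [Finset.card_compl, Nat.cast_sub (Finset.card_le_univ T)]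
    ring
  rw [hTc, vv_card, sum_G hg, ← hN] at hgenq
  have hfib : (S.card : ℝ) = finrank ℚ⟮β⟯ K * T.card := by
    have h1 := sum_emb β (fun z => if good z then (1 : ℝ) else 0)
    rw [Finset.sum_boole, Finset.sum_boole] at h1
    exact h1
  have hdeg : finrank ℚ ℚ⟮β⟯ * finrank ℚ⟮β⟯ K = finrank ℚ K := finrank_mul_finrank ℚ ℚ⟮β⟯ K
  rw [adjoin.finrank (Algebra.IsIntegral.isIntegral (R := ℚ) β), ← hN, ← hn] at hdeg
  have hy0 : 0 < finrank ℚ⟮β⟯ K := finrank_pos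
  have hN0 : 0 < N := by
    rw [hN]; exact minpoly.natDegree_pos (Algebra.IsIntegral.isIntegral (R := ℚ) _)
  have hlp : 0 < Real.log p := Real.log_pos (by exact_mod_cast hp.one_lt)
  have hlN : 0 ≤ Real.log N := Real.log_natCast_nonneg _
  have hG00 : 0 ≤ hG G₀ α := div_nonneg (Finset.sum_nonneg fun σ _ => hg.hG0 _) (Nat.cast_nonneg _)
  have hA1 : (0 : ℝ) ≤ 1 + 2 * (f.natDegree * C₀) := by
    have := mul_nonneg (Nat.cast_nonneg (α := ℝ) f.natDegree) hg.hC
    linarith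
  set W : ℝ := N * ((f.natDegree : ℝ) ^ m * hG G₀ α) +
        (1 + 2 * (f.natDegree * C₀)) * (1 + Real.log N) with hW
  have hW0 : 0 ≤ W := by positivity
  have hn' : (n : ℝ) = N * finrank ℚ⟮β⟯ K := by exact_mod_cast hdeg.symm
  rw [hn']
  set x : ℝ := (N : ℝ) with hx
  set y : ℝ := ((finrank ℚ⟮β⟯ K : ℕ) : ℝ) with hy
  set D : ℝ := ((G.natDegree : ℕ) : ℝ) with hD
  set a : ℝ := ((A.natDegree : ℕ) : ℝ) with ha
  set g : ℝ := ((T.card : ℕ) : ℝ) with hgg
  have hx0 : 0 < x := by rw [hx]; exact_mod_cast hN0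
  have hy0' : 0 < y := by rw [hy]; exact_mod_cast hy0
  have hD0 : 0 < D := by rw [hD]; exact_mod_cast hG0
  have hag : a ≤ y * g := by
    rw [← hfib, ha]
    exact_mod_cast hcount
  have ha0 : 0 ≤ a := Nat.cast_nonneg _
  have hR : 0 ≤ 2 * D * (x * y) ^ 2 * W := by positivity
  rcases le_or_gt (a * x) (2 * D * (x * y)) with h1 | h1
  · refine le_trans ?_ hR
    apply mul_nonpos_of_nonpos_of_nonneg _ hlp.le
    exact mul_nonpos_of_nonneg_of_nonpos ha0 (by linarith)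
  · have h2 : a * (a * x - 2 * D * (x * y)) ≤ (y * g) * ((y * g) * x - 2 * D * (x * y)) := by
      apply mul_le_mul hag _ (by linarith) (by positivity)
      have := mul_le_mul_of_nonneg_right hag hx0.le
      linarith
    have h3 : (y * g) * ((y * g) * x - 2 * D * (x * y)) = x * y ^ 2 * (g * (g - 2 * D)) := by ring
    calc a * (a * x - 2 * D * (x * y)) * Real.log p
        ≤ (y * g) * ((y * g) * x - 2 * D * (x * y)) * Real.log p :=
          mul_le_mul_of_nonneg_right h2 hlp.le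
      _ = x * y ^ 2 * (g * (g - 2 * D) * Real.log p) := by rw [h3]; ring
      _ ≤ x * y ^ 2 * (2 * D * (x * W)) :=
          mul_le_mul_of_nonneg_left hgenq (by positivity)
      _ = 2 * D * (x * y) ^ 2 * W := by ring

/-- the arithmetic of the criterion -/
lemma crit {a D N n lp A₀ E h : ℝ} (hN : 0 < N) (hn : 0 < n) (hD : 0 < D) (hE : 0 < E)
    (ha : 0 ≤ a) (hlp : 0 ≤ lp)
    (h1 : a * (a * N - 2 * D * n) * lp ≤ 2 * D * n ^ 2 * (N * (E * h) + A₀))
    (h2 : 4 * D * n ≤ a * N) (h3 : 8 * D * n ^ 2 * A₀ ≤ a ^ 2 * N * lp) :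
    a ^ 2 * lp / (8 * D * n ^ 2 * E) ≤ h := by
  have h4 : a * (a * N / 2) * lp ≤ a * (a * N - 2 * D * n) * lp := by
    apply mul_le_mul_of_nonneg_right _ hlp
    apply mul_le_mul_of_nonneg_left _ ha
    linarith
  have h5 : N * (a ^ 2 * lp) ≤ N * (8 * D * n ^ 2 * E * h) := by nlinarith
  have h6 := le_of_mul_le_mul_left h5 hN
  rw [div_le_iff₀ (by positivity)]
  linarith

/-- **high multiplicities** -/
theorem loc_mult {f : ℤ[X]} {G₀ : ℂ → ℝ} {C₀ : ℝ} (hg : IsGreen f G₀ C₀) {p : ℕ} [Fact p.Prime]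
    (k : ℕ) (hk : 1 ≤ k) (c : ZMod p)
    (hfp : f.map (Int.castRingHom (ZMod p)) = X ^ p ^ k + C c) (A₀ B₀ : ℝ)
    (hA₀ : A₀ = 1 + 2 * (f.natDegree * C₀)) (hB : B₀ = max 8 (16 * A₀ / Real.log p))
    {K : Type*} [Field K] [NumberField K] {α : K} (hα : IsIntegral ℤ α) (hgen : ℚ⟮α⟯ = ⊤)
    (A B : (ZMod p)[X]) (hAB : (minpoly ℤ α).map (Int.castRingHom (ZMod p)) = A * B)
    (hco : IsCoprime A B) (ha0 : 0 < A.natDegree) (N : ℕ) (hN1 : 1 ≤ N)
    (hN : ∀ t : ℕ, N ≤ (minpoly ℚ ((ph f)^[t] α)).natDegree) (n : ℕ) (hn : n = finrank ℚ K)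
    (M : ℕ) (hM : ∀ R : (ZMod p)[X], Irreducible R → R ∣ A → R ^ M ∣ A)
    (hML : p ^ k * (B₀ * n ^ 2 * (1 + Real.log N)) ≤ M * (A.natDegree * N)) :
    A.natDegree * Real.log p / (16 * n ^ 2) ≤ hG G₀ α := by
  have hp : p.Prime := Fact.out
  have hn0 : 0 < n := by rw [hn]; exact finrank_pos
  have hn0' : (0 : ℝ) < n := by exact_mod_cast hn0
  have hN1' : (1 : ℝ) ≤ N := by exact_mod_cast hN1
  have hlN : 0 ≤ Real.log N := Real.log_nonneg hN1'
  have hp1 : (1 : ℝ) < p := by exact_mod_cast hp.one_lt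
  have hlp : 0 < Real.log p := Real.log_pos hp1
  have hA1 : 1 ≤ A₀ := by
    rw [hA₀]
    have := mul_nonneg (Nat.cast_nonneg (α := ℝ) f.natDegree) hg.hC
    linarith
  have hB8 : 8 ≤ B₀ := by rw [hB]; exact le_max_left _ _
  have hBA : 16 * A₀ ≤ B₀ * Real.log p := by
    have : 16 * A₀ / Real.log p ≤ B₀ := by rw [hB]; exact le_max_right _ _
    rwa [div_le_iff₀ hlp] at this
  have hfd : f.natDegree = p ^ k := by
    rw [← hg.monic.natDegree_map (Int.castRingHom (ZMod p)), hfp]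
    exact natDegree_X_pow_add_C
  have hmn : (minpoly ℤ α).natDegree = n := by
    have h1 := adjoin.finrank (Algebra.IsIntegral.isIntegral (R := ℚ) α)
    rw [hgen, finrank_top', ← hn] at h1
    rw [h1, minpoly.isIntegrallyClosed_eq_field_fractions' ℚ hα,
      (minpoly.monic hα).natDegree_map]
  have hmp0 : (minpoly ℤ α).map (Int.castRingHom (ZMod p)) ≠ 0 := ((minpoly.monic hα).map _).ne_zero
  have hA0 : A ≠ 0 := by
    rintro rfl
    rw [zero_mul] at hAB
    exact hmp0 hAB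
  have hB0 : B ≠ 0 := by
    rintro rfl
    rw [mul_zero] at hAB
    exact hmp0 hAB
  have han : A.natDegree ≤ n := by
    have h1 := congrArg Polynomial.natDegree hAB
    rw [natDegree_mul hA0 hB0, (minpoly.monic hα).natDegree_map, hmn] at h1
    omega
  set a : ℝ := (A.natDegree : ℝ) with ha
  have ha0' : 0 < a := by rw [ha]; exact_mod_cast ha0
  have han' : a ≤ n := by rw [ha]; exact_mod_cast han
  have hNn : (N : ℝ) ≤ n := by
    have h1 := hN 0
    rw [Function.iterate_zero, id_eq, minpoly.isIntegrallyClosed_eq_field_fractions' ℚ hα,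
      (minpoly.monic hα).natDegree_map, hmn] at h1
    exact_mod_cast h1
  -- the choice of `t`
  set X₀ : ℝ := B₀ * n ^ 2 * (1 + Real.log N) / (a * N) with hX₀
  have haN : 0 < a * N := by positivity
  have hX1 : 1 ≤ X₀ := by
    rw [hX₀, le_div_iff₀ haN, one_mul]
    have h1 : a * N ≤ (n : ℝ) ^ 2 := by nlinarith
    have h2 : (n : ℝ) ^ 2 ≤ B₀ * n ^ 2 * (1 + Real.log N) := by
      have h3 : (1 : ℝ) ≤ B₀ * (1 + Real.log N) := by nlinarith
      nlinarith [sq_nonneg (n : ℝ)]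
    linarith
  have hq2 : 1 < p ^ k := Nat.one_lt_pow (by omega) hp.one_lt
  have hq2' : (1 : ℝ) < (p : ℝ) ^ k := by exact_mod_cast hq2
  obtain ⟨t, ht1, ht2⟩ : ∃ t : ℕ, X₀ ≤ ((p : ℝ) ^ k) ^ t ∧ ((p : ℝ) ^ k) ^ t ≤ (p : ℝ) ^ k * X₀ := by
    obtain ⟨t0, h1, h2⟩ := exists_nat_pow_near hX1 hq2'
    refine ⟨t0 + 1, h2.le, ?_⟩
    rw [pow_succ, mul_comm]
    exact mul_le_mul_of_nonneg_left h1 (by linarith)
  set E : ℝ := ((p : ℝ) ^ k) ^ t with hE
  have hE0 : 0 < E := by positivity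
  have hEM : E ≤ M := by
    refine ht2.trans ?_
    rw [hX₀, mul_div_assoc', div_le_iff₀ haN]
    exact hML
  have hM0 : 0 < M := by
    have : (0 : ℝ) < M := lt_of_lt_of_le hE0 hEM
    exact_mod_cast this
  -- the auxiliary polynomial
  obtain ⟨Φ, h1, h2, h3⟩ := Pool.Agent.TH860.LQ.exists_W (p ^ (k * t)) M (pow_pos hp.pos _) A hA0 hM
  have hΦ0 : 0 < Φ.natDegree := by
    by_contra h7
    have h8 : Φ = 1 := h1.natDegree_eq_zero.mp (by omega)
    rw [h8, one_pow] at h2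
    have h9 := natDegree_le_of_dvd h2 one_ne_zero
    rw [natDegree_one] at h9
    omega
  obtain ⟨G, hG1, hG2, hG3⟩ := exists_auxF f k c hfp t A Φ h1 h2
  have hmain := loc_ineq hg hp hα hgen t A B hAB hco G hG1 (by omega) hG3 _ rfl n hn
  rw [hG2, ← hA₀, ← ha] at hmain
  set D : ℝ := (Φ.natDegree : ℝ) with hD
  have hD0 : 0 < D := by rw [hD]; exact_mod_cast hΦ0
  have hDE : D * E ≤ 2 * a := by
    have h4 : (M : ℝ) * (D * E) ≤ (M + E) * a := by
      have h5 : ((M * (Φ.natDegree * p ^ (k * t)) : ℕ) : ℝ) ≤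
          (((M + p ^ (k * t)) * A.natDegree : ℕ) : ℝ) := by exact_mod_cast h3
      push_cast at h5
      rw [pow_mul] at h5
      exact h5
    have h6 : (M : ℝ) * (D * E) ≤ M * (2 * a) := by nlinarith
    exact le_of_mul_le_mul_left h6 (by exact_mod_cast hM0)
  have hmf : (f.natDegree : ℝ) ^ t = E := by
    rw [hfd, hE]
    push_cast
    rfl
  rw [hmf] at hmain
  -- pass to `N`
  set x : ℝ := ((minpoly ℚ ((ph f)^[t] α)).natDegree : ℝ) with hx
  have hxN : (N : ℝ) ≤ x := by rw [hx]; exact_mod_cast hN t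
  have hx0 : 0 < x := by linarith
  have hxn : x ≤ n := by
    rw [hx]
    have h4 := deg_iter_le f α t
    rw [minpoly.isIntegrallyClosed_eq_field_fractions' ℚ hα, (minpoly.monic hα).natDegree_map,
      hmn] at h4
    exact_mod_cast h4
  have hratio := log_ratio hN1' hxN
  have hXD : B₀ * n ^ 2 * (1 + Real.log N) ≤ E * (a * N) := by
    rw [hX₀, div_le_iff₀ haN] at ht1
    exact ht1
  have hlx : 0 ≤ Real.log x := Real.log_nonneg (by linarith)
  have hXDx : B₀ * n ^ 2 * (1 + Real.log x) ≤ E * (a * x) := by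
    have h4 : N * (B₀ * n ^ 2 * (1 + Real.log x)) ≤ N * (E * (a * x)) := by
      have h5 := mul_le_mul_of_nonneg_left hratio (by positivity : 0 ≤ B₀ * (n : ℝ) ^ 2)
      have h6 := mul_le_mul_of_nonneg_left hXD hx0.le
      nlinarith
    exact le_of_mul_le_mul_left h4 (by linarith)
  have hc1 : 4 * D * n ≤ a * x := by
    -- `E D ≤ 2 a`, `8 n ^ 2 ≤ E a x`
    have h4 : 8 * (n : ℝ) ^ 2 ≤ E * (a * x) := by
      have h5 : 8 * (n : ℝ) ^ 2 ≤ B₀ * n ^ 2 * (1 + Real.log x) := by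
        have h6 : (8 : ℝ) ≤ B₀ * (1 + Real.log x) := by nlinarith
        nlinarith [sq_nonneg (n : ℝ)]
      linarith
    have h7 : E * (4 * D * n) ≤ E * (a * x) := by
      calc E * (4 * D * n) = 4 * n * (D * E) := by ring
        _ ≤ 4 * n * (2 * a) := mul_le_mul_of_nonneg_left hDE (by positivity)
        _ = 8 * (n * a) := by ring
        _ ≤ 8 * (n * n) := by
            have := mul_le_mul_of_nonneg_left han' hn0'.le
            linarith
        _ = 8 * (n : ℝ) ^ 2 := by ring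
        _ ≤ _ := h4
    exact le_of_mul_le_mul_left h7 hE0
  have hc2 : 8 * D * n ^ 2 * (A₀ * (1 + Real.log x)) ≤ a ^ 2 * x * Real.log p := by
    have h4 : E * (8 * D * n ^ 2 * (A₀ * (1 + Real.log x))) ≤ E * (a ^ 2 * x * Real.log p) := by
      calc E * (8 * D * n ^ 2 * (A₀ * (1 + Real.log x)))
          = (D * E) * (8 * n ^ 2 * A₀ * (1 + Real.log x)) := by ring
        _ ≤ (2 * a) * (8 * n ^ 2 * A₀ * (1 + Real.log x)) :=
            mul_le_mul_of_nonneg_right hDE (by positivity)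
        _ = a * n ^ 2 * (1 + Real.log x) * (16 * A₀) := by ring
        _ ≤ a * n ^ 2 * (1 + Real.log x) * (B₀ * Real.log p) :=
            mul_le_mul_of_nonneg_left hBA (by positivity)
        _ = a * Real.log p * (B₀ * n ^ 2 * (1 + Real.log x)) := by ring
        _ ≤ a * Real.log p * (E * (a * x)) := mul_le_mul_of_nonneg_left hXDx (by positivity)
        _ = _ := by ring
    exact le_of_mul_le_mul_left h4 hE0
  have hfin := crit hx0 hn0' hD0 hE0 ha0'.le hlp.le hmain hc1 hc2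
  refine le_trans ?_ hfin
  rw [div_le_div_iff₀ (by positivity) (by positivity)]
  calc a * Real.log p * (8 * D * n ^ 2 * E) = 8 * a * Real.log p * n ^ 2 * (D * E) := by ring
    _ ≤ 8 * a * Real.log p * n ^ 2 * (2 * a) := mul_le_mul_of_nonneg_left hDE (by positivity)
    _ = _ := by ring

end Pool.Agent.V1156.DL
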